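import Pool.Agent.Lib.MP_715591_co.Fam.Snd
import Pool.Agent.Lib.MP_715591_co.Fam.Cert0
import Pool.Agent.Lib.MP_715591_co.Fam.Cert1
import Pool.Agent.Lib.MP_715591_co.Fam.Cert2
import Pool.Agent.Lib.MP_715591_co.Fam.Cert3

/-!
All positions of the table are won.
-/

namespace Pool.Agent.Lib.MP_715591_co.Fam

theorem pats_all : ∀ i < 547, PatW (PT.get i) :=
  (chkQ_sound p500
    (chkQ_sound p400
    (chkQ_sound p300
    (chkQ_sound p200
    (chkQ_sound p100
    (chkQ_sound p0
    (by simp)))))))

theorem upto0 : ∀ i < 1040, NodeW (TT.get i) :=
  (chkN_sound pats_all c1020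
    (chkN_sound pats_all c1000
    (chkN_sound pats_all c980
    (chkN_sound pats_all c960
    (chkN_sound pats_all c940
    (chkN_sound pats_all c920
    (chkN_sound pats_all c900
    (chkN_sound pats_all c880
    (chkN_sound pats_all c860
    (chkN_sound pats_all c840
    (chkN_sound pats_all c820
    (chkN_sound pats_all c800
    (chkN_sound pats_all c780
    (chkN_sound pats_all c760
    (chkN_sound pats_all c740
    (chkN_sound pats_all c720
    (chkN_sound pats_all c700
    (chkN_sound pats_all c680
    (chkN_sound pats_all c660
    (chkN_sound pats_all c640
    (chkN_sound pats_all c620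
    (chkN_sound pats_all c600
    (chkN_sound pats_all c580
    (chkN_sound pats_all c560
    (chkN_sound pats_all c540
    (chkN_sound pats_all c520
    (chkN_sound pats_all c500
    (chkN_sound pats_all c480
    (chkN_sound pats_all c460
    (chkN_sound pats_all c440
    (chkN_sound pats_all c420
    (chkN_sound pats_all c400
    (chkN_sound pats_all c380
    (chkN_sound pats_all c360
    (chkN_sound pats_all c340
    (chkN_sound pats_all c320
    (chkN_sound pats_all c300
    (chkN_sound pats_all c280
    (chkN_sound pats_all c260
    (chkN_sound pats_all c240
    (chkN_sound pats_all c220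
    (chkN_sound pats_all c200
    (chkN_sound pats_all c180
    (chkN_sound pats_all c160
    (chkN_sound pats_all c140
    (chkN_sound pats_all c120
    (chkN_sound pats_all c100
    (chkN_sound pats_all c80
    (chkN_sound pats_all c60
    (chkN_sound pats_all c40
    (chkN_sound pats_all c20
    (chkN_sound pats_all c0
    (by simp)))))))))))))))))))))))))))))))))))))))))))))))))))))

theorem upto1 : ∀ i < 2080, NodeW (TT.get i) :=
  (chkN_sound pats_all c2060
    (chkN_sound pats_all c2040
    (chkN_sound pats_all c2020
    (chkN_sound pats_all c2000
    (chkN_sound pats_all c1980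
    (chkN_sound pats_all c1960
    (chkN_sound pats_all c1940
    (chkN_sound pats_all c1920
    (chkN_sound pats_all c1900
    (chkN_sound pats_all c1880
    (chkN_sound pats_all c1860
    (chkN_sound pats_all c1840
    (chkN_sound pats_all c1820
    (chkN_sound pats_all c1800
    (chkN_sound pats_all c1780
    (chkN_sound pats_all c1760
    (chkN_sound pats_all c1740
    (chkN_sound pats_all c1720
    (chkN_sound pats_all c1700
    (chkN_sound pats_all c1680
    (chkN_sound pats_all c1660
    (chkN_sound pats_all c1640
    (chkN_sound pats_all c1620
    (chkN_sound pats_all c1600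
    (chkN_sound pats_all c1580
    (chkN_sound pats_all c1560
    (chkN_sound pats_all c1540
    (chkN_sound pats_all c1520
    (chkN_sound pats_all c1500
    (chkN_sound pats_all c1480
    (chkN_sound pats_all c1460
    (chkN_sound pats_all c1440
    (chkN_sound pats_all c1420
    (chkN_sound pats_all c1400
    (chkN_sound pats_all c1380
    (chkN_sound pats_all c1360
    (chkN_sound pats_all c1340
    (chkN_sound pats_all c1320
    (chkN_sound pats_all c1300
    (chkN_sound pats_all c1280
    (chkN_sound pats_all c1260
    (chkN_sound pats_all c1240
    (chkN_sound pats_all c1220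
    (chkN_sound pats_all c1200
    (chkN_sound pats_all c1180
    (chkN_sound pats_all c1160
    (chkN_sound pats_all c1140
    (chkN_sound pats_all c1120
    (chkN_sound pats_all c1100
    (chkN_sound pats_all c1080
    (chkN_sound pats_all c1060
    (chkN_sound pats_all c1040
    upto0))))))))))))))))))))))))))))))))))))))))))))))))))))

theorem upto2 : ∀ i < 3120, NodeW (TT.get i) :=
  (chkN_sound pats_all c3100
    (chkN_sound pats_all c3080
    (chkN_sound pats_all c3060
    (chkN_sound pats_all c3040
    (chkN_sound pats_all c3020
    (chkN_sound pats_all c3000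
    (chkN_sound pats_all c2980
    (chkN_sound pats_all c2960
    (chkN_sound pats_all c2940
    (chkN_sound pats_all c2920
    (chkN_sound pats_all c2900
    (chkN_sound pats_all c2880
    (chkN_sound pats_all c2860
    (chkN_sound pats_all c2840
    (chkN_sound pats_all c2820
    (chkN_sound pats_all c2800
    (chkN_sound pats_all c2780
    (chkN_sound pats_all c2760
    (chkN_sound pats_all c2740
    (chkN_sound pats_all c2720
    (chkN_sound pats_all c2700
    (chkN_sound pats_all c2680
    (chkN_sound pats_all c2660
    (chkN_sound pats_all c2640
    (chkN_sound pats_all c2620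
    (chkN_sound pats_all c2600
    (chkN_sound pats_all c2580
    (chkN_sound pats_all c2560
    (chkN_sound pats_all c2540
    (chkN_sound pats_all c2520
    (chkN_sound pats_all c2500
    (chkN_sound pats_all c2480
    (chkN_sound pats_all c2460
    (chkN_sound pats_all c2440
    (chkN_sound pats_all c2420
    (chkN_sound pats_all c2400
    (chkN_sound pats_all c2380
    (chkN_sound pats_all c2360
    (chkN_sound pats_all c2340
    (chkN_sound pats_all c2320
    (chkN_sound pats_all c2300
    (chkN_sound pats_all c2280
    (chkN_sound pats_all c2260
    (chkN_sound pats_all c2240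
    (chkN_sound pats_all c2220
    (chkN_sound pats_all c2200
    (chkN_sound pats_all c2180
    (chkN_sound pats_all c2160
    (chkN_sound pats_all c2140
    (chkN_sound pats_all c2120
    (chkN_sound pats_all c2100
    (chkN_sound pats_all c2080
    upto1))))))))))))))))))))))))))))))))))))))))))))))))))))

theorem upto3 : ∀ i < 4107, NodeW (TT.get i) :=
  (chkN_sound pats_all c4100
    (chkN_sound pats_all c4080
    (chkN_sound pats_all c4060
    (chkN_sound pats_all c4040
    (chkN_sound pats_all c4020
    (chkN_sound pats_all c4000
    (chkN_sound pats_all c3980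
    (chkN_sound pats_all c3960
    (chkN_sound pats_all c3940
    (chkN_sound pats_all c3920
    (chkN_sound pats_all c3900
    (chkN_sound pats_all c3880
    (chkN_sound pats_all c3860
    (chkN_sound pats_all c3840
    (chkN_sound pats_all c3820
    (chkN_sound pats_all c3800
    (chkN_sound pats_all c3780
    (chkN_sound pats_all c3760
    (chkN_sound pats_all c3740
    (chkN_sound pats_all c3720
    (chkN_sound pats_all c3700
    (chkN_sound pats_all c3680
    (chkN_sound pats_all c3660
    (chkN_sound pats_all c3640
    (chkN_sound pats_all c3620
    (chkN_sound pats_all c3600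
    (chkN_sound pats_all c3580
    (chkN_sound pats_all c3560
    (chkN_sound pats_all c3540
    (chkN_sound pats_all c3520
    (chkN_sound pats_all c3500
    (chkN_sound pats_all c3480
    (chkN_sound pats_all c3460
    (chkN_sound pats_all c3440
    (chkN_sound pats_all c3420
    (chkN_sound pats_all c3400
    (chkN_sound pats_all c3380
    (chkN_sound pats_all c3360
    (chkN_sound pats_all c3340
    (chkN_sound pats_all c3320
    (chkN_sound pats_all c3300
    (chkN_sound pats_all c3280
    (chkN_sound pats_all c3260
    (chkN_sound pats_all c3240
    (chkN_sound pats_all c3220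
    (chkN_sound pats_all c3200
    (chkN_sound pats_all c3180
    (chkN_sound pats_all c3160
    (chkN_sound pats_all c3140
    (chkN_sound pats_all c3120
    upto2))))))))))))))))))))))))))))))))))))))))))))))))))

theorem root_ok : Gm 8 ∅ ∅ := by
  have h := upto3 4106 (by norm_num)
  rw [show TT.get 4106 = 263 by decide +kernel] at h
  exact root_gm h

end Pool.Agent.Lib.MP_715591_co.Fam
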