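import Pool.Agent.Lib.MP_715591_co.Defs

/-!
The checker for the game with two targets.
-/

namespace Pool.Agent.Lib.MP_715591_co.Fam

noncomputable section

/-- marked vertices of a pattern -/
def qS (P : ℕ) : ℕ := Nat.land (Nat.shiftRight P 16) 18446744073709551615
/-- edges of a pattern -/
def qG (P : ℕ) : ℕ := Nat.land (Nat.shiftRight P 80) 340282366920938463463374607431768211455
/-- zone of a pattern -/
def qZ (P : ℕ) : ℕ := Nat.shiftRight P 208
/-- index field of an entry -/
def eId (c : ℕ) : ℕ := Nat.land (Nat.shiftRight c 2) 16383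
/-- map field of an entry -/
def eMap (c : ℕ) : ℕ := Nat.land (Nat.shiftRight c 16) 18446744073709551615
/-- all bits of a board -/
def full : ℕ := Nat.sub (Nat.shiftLeft 1 256) 1
/-- edges of the player to win -/
def nX (N : ℕ) : ℕ := Nat.land (Nat.shiftRight N 4) full
/-- edges of the opponent -/
def nY (N : ℕ) : ℕ := Nat.shiftRight N 260
/-- negation -/
def nt (a : Bool) : Bool := cnd a false true
/-- disjunction -/
def orr (a b : Bool) : Bool := cnd a true b

/-- length of a stream -/
def cntE (fuel : ℕ) : ℕ → ℕ :=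
  @Nat.rec (fun _ => ℕ → ℕ) (fun _ => 0) (fun _ ih code => cnd (Nat.beq code 0) 0
    (Nat.succ (frc (Nat.shiftRight code 8) ih))) fuel

/-- a three page book and a two page book at the first hub -/
def optChk (M a b p : ℕ) : Bool := an (bookChk M a b 3) (an (bookChk M a p 2) (nt (Nat.beq p b)))

/-- one case of a pattern -/
def caseChk (PT : Tr) (j t kb : ℕ) (cnt alt : Bool) (m G Z S code : ℕ) : Bool :=
  frc (eId code) fun id => frc (PT.get id) fun P => frc (eMap code) fun ψ =>
    an (Nat.blt id j) (an (Nat.beq (pc (vals ψ (nib P 2))) (nib P 2))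
      (an (Nat.blt (vals ψ (nib P 2)) (Nat.shiftLeft 2 m)) (an (Nat.blt (nib P 0) t)
      (an (Nat.ble (nib P 1) kb) (an (orr (nt (tb P 12)) cnt) (an (orr (nt alt) (tb P 13))
      (an (sub (img ψ 8 16 (qG P)) G) (an (sub (img ψ 8 32 (qZ P)) Z)
        (sub (marks ψ 8 (qS P)) S)))))))))

/-- all cases of a pattern -/
def casesQ (PT : Tr) (j t kb : ℕ) (cnt alt : Bool) (m G Z S fuel : ℕ) : ℕ → ℕ → Bool :=
  @Nat.rec (fun _ => ℕ → ℕ → Bool) (fun _ _ => false) (fun _ ih code I =>
    cnd (Nat.beq code 0) (sub I G) (an (caseChk PT j t kb cnt alt m G Z S code)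
      (frc (Nat.shiftRight code 80) fun z =>
        frc (Nat.land I (img (eMap code) 8 32 (qZ (PT.get (eId code))))) fun W => ih z W))) fuel

/-- check of a pattern -/
def patQ (PT : Tr) (j D : ℕ) : Bool :=
  frc (PT.get j) fun P => frc (nib P 0) fun t => frc (nib P 1) fun K => frc (nib P 2) fun m =>
  frc (img idm 8 16 (qG P)) fun G => frc (img idm 8 32 (qZ P)) fun Z =>
  frc (marks idm 8 (qS P)) fun S => frc (nib D 1) fun x => frc (nib D 2) fun y =>
    an (Nat.ble m 14) (an (Nat.beq (Nat.shiftRight (Nat.lor G Z) (Nat.mul 16 m)) 0)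
      (an (Nat.blt S (Nat.shiftLeft 1 m))
      (cnd (Nat.beq (nib D 0) 0)
        (an (Nat.blt x y) (an (tb Z (Nat.add (Nat.mul 16 x) y))
          (bookChk (Nat.lor G (bit2 x y)) (nib D 3) (nib D 4) 4)))
        (an (Nat.ble 2 t) (an (Nat.ble 1 K)
        (cnd (Nat.beq (nib D 0) 1) (an (nt (tb P 13)) (an (tb S y) (optChk G x y (nib D 3))))
        (cnd (Nat.beq (nib D 0) 2)
          (an (tb P 12) (an (optChk G x y (nib D 3)) (optChk G y x (nib D 4))))
          (an (orr (nt (tb P 13)) (Nat.ble 3 t)) (an (Nat.blt 0 (Nat.shiftRight D 20))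
            (an (Nat.blt x y) (an (tb (Nat.lor Z (star m m)) (Nat.add (Nat.mul 16 x) y))
              (an (caseChk PT j t (Nat.sub K 1) (tb P 12) (tb P 13) m (Nat.lor G (bit2 x y))
                  (Nat.lor Z (star m m)) S (Nat.shiftRight D 20))
                (casesQ PT j t K (tb P 12) (tb P 13) m (Nat.lor G (bit2 x y))
                  (Nat.lor Z (star m m)) S 32 (Nat.shiftRight D 20) full)))))))))))))

/-- check of a run of patterns -/
def chkQ (PT : Tr) (hi : ℕ) (l : List ℕ) : ℕ → Bool :=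
  @List.rec ℕ (fun _ => ℕ → Bool) (fun j => Nat.beq j hi)
    (fun z _ ih j => an (patQ PT j z) (frc (Nat.succ j) ih)) l

/-- use of a pattern -/
def ruleP (PT : Tr) (np X Y : ℕ) (R : List Row) (c crit lv mm code : ℕ) (k : ℕ → Bool) : Bool :=
  frc (eId code) fun id => frc (PT.get id) fun P => frc (eMap code) fun ψ => frc (nib P 0) fun t =>
  frc (img ψ 8 32 (qZ P)) fun Z => frc (Nat.add mm t) fun s =>
    an (Nat.blt id np) (an (Nat.beq (pc (vals ψ (nib P 2))) (nib P 2)) (an (Nat.ble (nib P 1) lv)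
      (an (Nat.ble s 38) (an (sub (img ψ 8 16 (qG P)) X) (an (Nat.beq (Nat.land Z Y) 0)
        (cnd (an (tb P 13) (an (Nat.ble s 10) (Nat.ble 2 lv)))
          (frc (critS Y X R (Nat.sub t 1) ψ 8 (qS P) Z) fun bad => an (Nat.blt bad flag) (k bad))
          (an (Nat.ble t c) (an (orr (nt (tb P 12)) (Nat.ble s 12))
            (frc (critS Y X R (Nat.sub t 1) ψ 8 (qS P) (cnd (Nat.beq t c) (Nat.lor crit Z) Z))
              fun bad => an (Nat.blt bad flag) (k bad))))))))))

/-- use of an earlier position -/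
def ruleK (T : Tr) (j X Y lv code : ℕ) (k : ℕ → Bool) : Bool :=
  frc (eId code) fun id => frc (T.get id) fun N => frc (eMap code) fun ψ =>
  frc (nib code 20) fun p => frc (nib code 21) fun q => frc (nib N 0) fun r =>
  frc (img ψ 8 32 (nY N)) fun A =>
    an (Nat.blt id j) (an (Nat.beq (pc (vals ψ 16)) 16) (an (Nat.blt p q)
      (an (nt (tb A (Nat.add (Nat.mul 16 p) q))) (an (sub (img ψ 8 32 (nX N)) (Nat.lor X (bit2 p q)))
        (an (sub Y A) (an (orr (Nat.beq (Nat.succ r) lv) (an (Nat.ble 1 r) (Nat.blt r lv)))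
          (frc (Nat.xor full A) k)))))))

/-- endless threats -/
def ruleT (X Y : ℕ) (R : List Row) (c crit lv code : ℕ) (k : ℕ → Bool) : Bool :=
  frc (nib code 2) fun y =>
  frc (Nat.lor (Nat.lor (star y 16) (star (nib code 3) 16)) (bit2 (nib code 4) (nib code 5))) fun A =>
    an (Nat.beq lv 1) (an (sub Y A) (an (bookChk X (nib code 1) y 3)
      (mkRow Y X y fun r => frc (critR 1 3 r R
        (Nat.lor (Nat.xor full A) (cnd (Nat.beq c 2) crit 0))) fun bad =>
          an (Nat.blt bad flag) (k bad))))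

/-- all moves in `U` are answered -/
def cover (PT T : Tr) (np j X Y : ℕ) (R : List Row) (c crit lv mm fuel : ℕ) : ℕ → ℕ → Bool :=
  @Nat.rec (fun _ => ℕ → ℕ → Bool) (fun _ _ => false) (fun _ ih code U =>
    cnd (Nat.beq code 0) (Nat.beq U 0) (frc (Nat.shiftRight code 88) fun z =>
      cnd (Nat.beq (Nat.land code 3) 1)
        (ruleP PT np X Y R c crit lv mm code fun bad => frc (Nat.land U bad) (ih z))
        (cnd (Nat.beq (Nat.land code 3) 2)
          (ruleK T j X Y lv code fun bad => frc (Nat.land U bad) (ih z))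
          (ruleT X Y R c crit lv code fun bad => frc (Nat.land U bad) (ih z))))) fuel

/-- the opponent has only single threats -/
def leaf4 (X Y h : ℕ) : Bool :=
  frc (nib h 3) fun x => frc (nib h 4) fun y => frc (nib h 5) fun a => frc (nib h 6) fun b =>
    an (sub Y (Nat.lor (star x 16) (star y 16)))
      (an (Nat.ble (pc (Nat.land (Nat.lor (row Y x) (row Y y)) (Nat.xor 65535
        (Nat.lor (Nat.lor (row X x) (row X y)) (Nat.lor (Nat.shiftLeft 1 x) (Nat.shiftLeft 1 y)))))) 4)
      (an (nt (Nat.beq b x)) (an (nt (Nat.beq b y)) (an (optChk X a b (nib h 7))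
        (cnd (orr (Nat.beq a x) (Nat.beq a y)) (Nat.beq (row Y b) 0) (optChk X b a (nib h 8)))))))

/-- check of a position -/
def nodeQ (PT T : Tr) (np j h ch : ℕ) : Bool :=
  frc (T.get j) fun N => frc (nib N 0) fun r => frc (img idm 8 32 (nX N)) fun X =>
  frc (img idm 8 32 (nY N)) fun Y => frc (cntE 32 (nY N)) fun mm =>
  frc (nib h 0) fun n => frc (nib h 1) fun c =>
    an (Nat.ble n 14) (an (Nat.ble 2 c) (an (Nat.beq (Nat.land X Y) 0)
      (frc (Nat.lor X Y) fun occ => an (Nat.beq (Nat.shiftRight occ (Nat.mul 16 n)) 0)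
        (rowsK Y X (Nat.add n 2) (fun R => frc (critT c R) fun crit => an (Nat.blt crit flag)
          (cnd (Nat.beq (nib h 2) 1) (an (Nat.ble 1 r) (leaf4 X Y h))
            (an (cover PT T np j X Y R c crit r mm 2 (Nat.shiftRight h 36) (Nat.shiftLeft 1 300))
              (frc (canon n) fun C => frc (Nat.xor C (Nat.land C occ)) fun U =>
                cover PT T np j X Y R c crit (Nat.succ r) (Nat.succ mm) 128 ch U))))
          [⟨16, 0, 0, 0⟩, ⟨17, 0, 0, 0⟩]))))

/-- check of a run of positions -/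
def chkN (PT T : Tr) (np hi : ℕ) (l : List (ℕ × ℕ)) : ℕ → Bool :=
  @List.rec (ℕ × ℕ) (fun _ => ℕ → Bool) (fun j => Nat.beq j hi)
    (fun z _ ih j => an (nodeQ PT T np j z.1 z.2) (frc (Nat.succ j) ih)) l

end

end Pool.Agent.Lib.MP_715591_co.Fam
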