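import Pool.Agent.Lib.MP_715591_co.Static

/-!
The strong game for two targets (the book with four pages, and a two page book joined by a path
to a large star): positions won by the player to move, with a budget of passes for the opponent.
-/

namespace Pool.Agent.Lib.MP_715591_co.Fam

open Classical

/-- a copy of the second target: spine `a b`, pages `u v`, path `u l c`, leaves `L` at `c` -/
structure MAt (X : Set E) (a b u v l c : ℕ) (L : Finset ℕ) : Prop where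
  card : L.card = 50
  ab : a ≠ b
  au : a ≠ u
  av : a ≠ v
  al : a ≠ l
  ac : a ≠ c
  bu : b ≠ u
  bv : b ≠ v
  bl : b ≠ l
  bc : b ≠ c
  uv : u ≠ v
  ul : u ≠ l
  uc : u ≠ c
  vl : v ≠ l
  vc : v ≠ c
  lc : l ≠ c
  out : ∀ w ∈ L, w ≠ a ∧ w ≠ b ∧ w ≠ u ∧ w ≠ v ∧ w ≠ l ∧ w ≠ c
  eab : s(a, b) ∈ X
  eau : s(a, u) ∈ X
  ebu : s(b, u) ∈ X
  eav : s(a, v) ∈ X
  ebv : s(b, v) ∈ X
  eul : s(u, l) ∈ X
  ecl : s(c, l) ∈ X
  leaf : ∀ w ∈ L, s(c, w) ∈ X

/-- `X` contains the second target -/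
def HasM (X : Set E) : Prop := ∃ a b u v l c L, MAt X a b u v l c L

/-- `X` contains one of the two targets -/
def Win (X : Set E) : Prop := HasH X ∨ HasM X

theorem MAt.mono {X X' : Set E} {a b u v l c : ℕ} {L : Finset ℕ} (h : MAt X a b u v l c L)
    (hX : X ⊆ X') : MAt X' a b u v l c L :=
  { h with eab := hX h.eab, eau := hX h.eau, ebu := hX h.ebu, eav := hX h.eav, ebv := hX h.ebv,
           eul := hX h.eul, ecl := hX h.ecl, leaf := fun w hw => hX (h.leaf w hw) }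

theorem HasM.mono {X X' : Set E} (h : HasM X) (hX : X ⊆ X') : HasM X' :=
  let ⟨a, b, u, v, l, c, L, h⟩ := h; ⟨a, b, u, v, l, c, L, h.mono hX⟩

theorem Win.mono {X X' : Set E} (h : Win X) (hX : X ⊆ X') : Win X' :=
  h.imp (fun h => h.mono hX) fun h => h.mono hX

/-- one more edge does not give the second target -/
def NM (Y : Set E) : Prop := ∀ g, ¬ HasM (insert g Y)

/-- the owner of `Y` has no winning edge -/
def NW (X Y : Set E) : Prop := Thr Y X 2 ∧ NM Y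

theorem thr_anti {X Y Y' : Set E} {c : ℕ} (h : Thr Y X c) (hY : Y' ⊆ Y) : Thr Y' X c :=
  fun F h1 h2 h3 => h F h1 h2 (h3.mono (Set.union_subset_union_left _ hY))

theorem pi_anti {X Y Y' : Set E} {v c : ℕ} (h : Pi Y X v c) (hY : Y' ⊆ Y) : Pi Y' X v c :=
  fun F h1 h2 y h3 => h F h1 h2 y (h3.mono (Set.union_subset_union_left _ hY))

theorem NM.anti {Y Y' : Set E} (h : NM Y) (hY : Y' ⊆ Y) : NM Y' :=
  fun g hg => h g (hg.mono (Set.insert_subset_insert hY))

theorem NW.mono {X Y X' Y' : Set E} (h : NW X Y) (hX : X ⊆ X') (hY : Y' ⊆ Y) : NW X' Y' :=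
  ⟨thr_anti (h.1.mono le_rfl hX) hY, h.2.anti hY⟩

theorem NW.no {X Y : Set E} (h : NW X Y) {g : E} (hg : g ∉ X) : ¬ Win (insert g Y) := by
  rintro (k | k)
  exacts [(h.1.step (c' := 1) le_rfl hg).noH le_rfl k, h.2 g k]

theorem NW.no0 {X Y : Set E} (h : NW X Y) : ¬ Win Y := by
  rintro (k | k)
  exacts [h.1.noH (by omega) k, h.2 s(0, 0) (k.mono (Set.subset_insert _ _))]

/-- the owner of `X` can threaten for ever without helping the opponent -/
def T1 (X Y : Set E) : Prop := Y.Finite ∧ ∃ (x y z : ℕ) (e : E), Mach X x y ∧ Thr Y X 2 ∧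
  Pi Y X y 1 ∧ ∀ f ∈ Y, y ∈ f ∨ z ∈ f ∨ f = e

/-- the owner of `X` is to move.  Level `0`: he wins at once.  Level `1`: he wins or threatens
for ever.  Higher levels: he wins unless the opponent passes, and a pass lowers the level. -/
inductive Gm : ℕ → Set E → Set E → Prop
  | now (r : ℕ) (X Y : Set E) (e : E) : ¬ e.IsDiag → e ∉ Y → Win (insert e X) → Gm r X Y
  | pump (X Y : Set E) : T1 X Y → Gm 1 X Y
  | step (r : ℕ) (X Y : Set E) (e : E) : ¬ e.IsDiag → e ∉ Y → NW (insert e X) Y →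
      (∀ f : E, ¬ f.IsDiag → f ∉ insert e X → Gm (r + 1) (insert e X) (insert f Y)) →
      Gm r (insert e X) Y → Gm (r + 1) X Y

/-- the owner of `Y` is to move, at level `r + 1` -/
def YN (r : ℕ) (X Y : Set E) : Prop :=
  NW X Y ∧ (∀ f : E, ¬ f.IsDiag → f ∉ X → Gm (r + 1) X (insert f Y)) ∧ Gm r X Y

theorem YN.step {r : ℕ} {X Y : Set E} {e : E} (h : YN r (insert e X) Y) (h1 : ¬ e.IsDiag)
    (h2 : e ∉ Y) : Gm (r + 1) X Y := Gm.step r X Y e h1 h2 h.1 h.2.1 h.2.2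

theorem Gm.mono {r : ℕ} {X Y : Set E} (h : Gm r X Y) :
    ∀ {X' Y' : Set E}, X ⊆ X' → Y' ⊆ Y → Gm r X' Y' := by
  induction h with
  | now r X Y e h1 h2 h3 =>
    exact fun hX hY => Gm.now _ _ _ e h1 (fun a => h2 (hY a)) (h3.mono (Set.insert_subset_insert hX))
  | pump X Y h =>
    obtain ⟨h0, x, y, z, e, h1, h2, h3, h4⟩ := h
    exact fun hX hY => Gm.pump _ _ ⟨h0.subset hY, x, y, z, e, h1.mono hX,
      thr_anti (h2.mono le_rfl hX) hY, pi_anti (h3.mono le_rfl hX) hY, fun f hf => h4 f (hY hf)⟩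
  | step r X Y e h1 h2 h3 _ _ ih1 ih2 =>
    intro X' Y' hX hY
    have hs := Set.insert_subset_insert (a := e) hX
    exact Gm.step _ _ _ e h1 (fun a => h2 (hY a)) (h3.mono hs hY)
      (fun f f1 f2 => ih1 f f1 (fun a => f2 (hs a)) hs (Set.insert_subset_insert hY)) (ih2 hs hY)

theorem YN.mono {r : ℕ} {X Y X' Y' : Set E} (h : YN r X Y) (hX : X ⊆ X') (hY : Y' ⊆ Y) :
    YN r X' Y' :=
  ⟨h.1.mono hX hY, fun f f1 f2 => (h.2.1 f f1 fun a => f2 (hX a)).mono hX
    (Set.insert_subset_insert hY), h.2.2.mono hX hY⟩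

theorem Gm.up {r : ℕ} {X Y : Set E} (h : Gm r X Y) : 2 ≤ r → X.Finite → Gm (r + 1) X Y := by
  induction h with
  | now r X Y e h1 h2 h3 => exact fun _ _ => Gm.now _ _ _ e h1 h2 h3
  | pump X Y h => exact fun h => absurd h (by omega)
  | step r X Y e h1 h2 h3 h4 _ ih1 _ =>
    intro hr hX
    obtain ⟨f, f1, f2⟩ := exists_free (hX.insert e)
    exact Gm.step _ _ _ e h1 h2 h3 (fun g g1 g2 => ih1 g g1 g2 hr (hX.insert e))
      ((h4 f f1 f2).mono subset_rfl (Set.subset_insert _ _))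

theorem YN.up {r s : ℕ} {X Y : Set E} (h : YN r X Y) (hr : 1 ≤ r) (hX : X.Finite) (hs : r ≤ s) :
    YN s X Y := by
  induction hs with
  | refl => exact h
  | step hs ih =>
    obtain ⟨f, f1, f2⟩ := exists_free hX
    exact ⟨ih.1, fun g g1 g2 => (ih.2.1 g g1 g2).up (Nat.succ_le_succ (hr.trans hs)) hX,
      (ih.2.1 f f1 f2).mono subset_rfl (Set.subset_insert _ _)⟩

/-- a threat and its forced answer -/
theorem Gm.thr {r : ℕ} {X Y : Set E} {e g : E} (e1 : ¬ e.IsDiag) (e2 : e ∉ Y) (hn : NW X Y)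
    (g1 : ¬ g.IsDiag) (g2 : g ∉ Y) (hw : Win (insert g (insert e X)))
    (h : Gm (r + 1) (insert e X) (insert g Y)) : Gm (r + 1) X Y := by
  refine Gm.step _ _ _ e e1 e2 (hn.mono (Set.subset_insert _ _) subset_rfl) (fun f _ _ => ?_)
    (Gm.now _ _ _ g g1 g2 hw)
  by_cases hf : g = f
  · exact hf ▸ h
  · exact Gm.now _ _ _ g g1 (by rintro (a | a); exacts [hf a, g2 a]) hw

theorem HasM.of_pb {π : ℕ ≃ ℕ} {X : Set E} (h : HasM (pb π X)) : HasM X := by
  obtain ⟨a, b, u, v, l, c, L, h⟩ := h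
  have n : ∀ {x y : ℕ}, x ≠ y → π x ≠ π y := fun h k => h (π.injective k)
  refine ⟨π a, π b, π u, π v, π l, π c, L.map π.toEmbedding, by simpa using h.card, n h.ab, n h.au,
    n h.av, n h.al, n h.ac, n h.bu, n h.bv, n h.bl, n h.bc, n h.uv, n h.ul, n h.uc, n h.vl, n h.vc,
    n h.lc, fun w hw => ?_, h.eab, h.eau, h.ebu, h.eav, h.ebv, h.eul, h.ecl, fun w hw => ?_⟩
  · obtain ⟨x, hx, rfl⟩ := Finset.mem_map.1 hw
    obtain ⟨h1, h2, h3, h4, h5, h6⟩ := h.out x hx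
    exact ⟨n h1, n h2, n h3, n h4, n h5, n h6⟩
  · obtain ⟨x, hx, rfl⟩ := Finset.mem_map.1 hw
    exact h.leaf x hx

theorem Win.to_pb (π : ℕ ≃ ℕ) {X : Set E} (h : Win X) : Win (pb π X) :=
  h.imp (HasH.to_pb π) fun h => HasM.of_pb (π := π.symm) (by rwa [pb_pb])

theorem mach_of_pb {π : ℕ ≃ ℕ} {X : Set E} {u v : ℕ} (h : Mach (pb π X) u v) :
    Mach X (π u) (π v) := by
  obtain ⟨P, hc, h1, h2, h3, h4, h5⟩ := h
  refine ⟨P.map π.toEmbedding, by simpa using hc, by simpa using h1, by simpa using h2,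
    by simpa using h3, h4, fun w hw => ?_⟩
  obtain ⟨x, hx, rfl⟩ := Finset.mem_map.1 hw
  exact h5 x hx

theorem pb_union (π : ℕ ≃ ℕ) (Y : Set E) (F : Finset E) :
    pb π Y ∪ (F : Set E) ⊆ pb π (Y ∪ (F.image (Sym2.map π) : Finset E)) := by
  rintro e (h | h)
  · exact Or.inl h
  · exact Or.inr (Finset.mem_coe.2 (Finset.mem_image_of_mem _ h))

theorem pb_img {π : ℕ ≃ ℕ} {X : Set E} {F : Finset E} (h : ∀ e ∈ F, e ∉ pb π X) :
    ∀ e ∈ F.image (Sym2.map π), e ∉ X := by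
  intro e he
  obtain ⟨z, hz, rfl⟩ := Finset.mem_image.1 he
  exact h z hz

theorem thr_pb (π : ℕ ≃ ℕ) {X Y : Set E} {c : ℕ} (h : Thr Y X c) : Thr (pb π Y) (pb π X) c :=
  fun F h1 h2 h3 => h _ (Finset.card_image_le.trans_lt h1) (pb_img h2)
    (h3.mono (pb_union π Y F)).of_pb

theorem pi_pb (π : ℕ ≃ ℕ) {X Y : Set E} {v c : ℕ} (h : Pi Y X (π v) c) :
    Pi (pb π Y) (pb π X) v c :=
  fun F h1 h2 _ h3 => h _ (Finset.card_image_le.trans_lt h1) (pb_img h2) _
    (mach_of_pb (h3.mono (pb_union π Y F)))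

theorem NW.to_pb (π : ℕ ≃ ℕ) {X Y : Set E} (h : NW X Y) : NW (pb π X) (pb π Y) :=
  ⟨thr_pb π h.1, fun g hg => h.2 (Sym2.map π g) (HasM.of_pb (π := π) (by rwa [pb_insert]))⟩

theorem pb_ins' (π : ℕ ≃ ℕ) (X : Set E) (e : E) :
    insert (Sym2.map π.symm e) (pb π X) = pb π (insert e X) := by
  rw [← pb_insert, map_map_symm]

theorem Gm.to_pb (π : ℕ ≃ ℕ) {r : ℕ} {X Y : Set E} (h : Gm r X Y) : Gm r (pb π X) (pb π Y) := by
  have k : ∀ {e : E} {Y : Set E}, e ∉ Y → Sym2.map π.symm e ∉ pb π Y := fun h a =>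
    h (by rwa [pb, Set.mem_preimage, map_map_symm] at a)
  induction h with
  | now r X Y e h1 h2 h3 =>
    exact Gm.now _ _ _ (Sym2.map π.symm e) (by rwa [isDiag_map]) (k h2)
      (by rw [pb_ins']; exact h3.to_pb π)
  | pump X Y h =>
    obtain ⟨h0, x, y, z, e, h1, h2, h3, h4⟩ := h
    refine Gm.pump _ _ ⟨h0.preimage (Sym2.map.injective π.injective).injOn, π.symm x, π.symm y,
      π.symm z, Sym2.map π.symm e, mach_of_pb (by rwa [pb_pb]), thr_pb π h2,
      pi_pb π (by simpa using h3), fun f hf => ?_⟩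
    rw [← map_symm_map π f]
    exact (h4 _ hf).imp (fun a => Sym2.mem_map.2 ⟨_, a, rfl⟩)
      (Or.imp (fun a => Sym2.mem_map.2 ⟨_, a, rfl⟩) fun a => by rw [a])
  | step r X Y e h1 h2 h3 _ _ ih1 ih2 =>
    refine Gm.step _ _ _ (Sym2.map π.symm e) (by rwa [isDiag_map]) (k h2) ?_ (fun f f1 f2 => ?_) ?_
    · rw [pb_ins']; exact h3.to_pb π
    · rw [pb_ins'] at f2 ⊢
      rw [← pb_insert]
      exact ih1 _ (by rwa [isDiag_map]) f2
    · rw [pb_ins']; exact ih2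

theorem YN.to_pb (π : ℕ ≃ ℕ) {r : ℕ} {X Y : Set E} (h : YN r X Y) : YN r (pb π X) (pb π Y) :=
  ⟨h.1.to_pb π, fun f f1 f2 => by
    rw [← pb_insert]; exact (h.2.1 _ (by rwa [isDiag_map]) f2).to_pb π, h.2.2.to_pb π⟩

/-- it is enough to look at the moves inside `[0, n]` and at the move `n, n + 1` -/
theorem Gm.can {r : ℕ} {X Y : Set E} (n : ℕ)
    (hX : ∀ a b, s(a, b) ∈ X → a < n) (hY : ∀ a b, s(a, b) ∈ Y → a < n)
    (h : ∀ x y, x < y → (y ≤ n ∨ (x = n ∧ y = n + 1)) → s(x, y) ∉ X → s(x, y) ∉ Y →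
      Gm r X (insert s(x, y) Y)) (e : E) (e1 : ¬ e.IsDiag) (e2 : e ∉ X) :
    Gm r X (insert e Y) := by
  have key : ∀ (π : ℕ ≃ ℕ) (Z : Set E), (∀ a b, s(a, b) ∈ Z → a < n) → (∀ a < n, π a = a) →
      pb π Z = Z := by
    intro π Z hZ hπ
    have h2 : ∀ a, π a < n → π a = a := fun a ha => π.injective (hπ _ ha)
    ext z
    induction z using Sym2.ind with
    | _ a b =>
      rw [mem_pb]
      constructor
      · intro h
        rwa [h2 a (hZ _ _ h), h2 b (hZ _ _ (Sym2.eq_swap ▸ h))] at h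
      · intro h
        rwa [hπ a (hZ _ _ h), hπ b (hZ _ _ (Sym2.eq_swap ▸ h))]
  have out : ∀ x y, n ≤ y → s(x, y) ∉ X ∧ s(x, y) ∉ Y := fun x y hy =>
    ⟨fun h => absurd (hX _ _ (Sym2.eq_swap ▸ h)) (by omega),
      fun h => absurd (hY _ _ (Sym2.eq_swap ▸ h)) (by omega)⟩
  have tr : ∀ (π : ℕ ≃ ℕ) x y, (∀ a < n, π a = a) → Gm r X (insert s(π x, π y) Y) →
      Gm r X (insert s(x, y) Y) := by
    intro π x y hπ hg
    have := hg.to_pb π
    rwa [show s(π x, π y) = Sym2.map π s(x, y) from rfl, pb_insert, key π X hX hπ,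
      key π Y hY hπ] at this
  have last := h n (n + 1) (by omega) (Or.inr ⟨rfl, rfl⟩) (out _ _ (by omega)).1
    (out _ _ (by omega)).2
  have main : ∀ x y, x < y → s(x, y) ∉ X → s(x, y) ∉ Y → Gm r X (insert s(x, y) Y) := by
    intro x y hxy e2 e3
    by_cases hy : y ≤ n
    · exact h x y hxy (Or.inl hy) e2 e3
    by_cases hx : x < n
    · refine tr (Equiv.swap y n) x y (fun a ha => Equiv.swap_apply_of_ne_of_ne (by omega) (by omega)) ?_
      rw [Equiv.swap_apply_left, Equiv.swap_apply_of_ne_of_ne (by omega) (by omega)]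
      exact h x n hx (Or.inl le_rfl) (out _ _ le_rfl).1 (out _ _ le_rfl).2
    · refine tr ((Equiv.swap x n).trans (Equiv.swap y (n + 1))) x y (fun a ha => ?_) ?_
      · rw [Equiv.trans_apply, Equiv.swap_apply_of_ne_of_ne (a := x) (by omega) (by omega),
          Equiv.swap_apply_of_ne_of_ne (by omega) (by omega)]
      · rw [Equiv.trans_apply, Equiv.trans_apply, Equiv.swap_apply_left,
          Equiv.swap_apply_of_ne_of_ne (a := x) (by omega) (by omega), Equiv.swap_apply_left,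
          Equiv.swap_apply_of_ne_of_ne (by omega) (by omega)]
        exact last
  by_cases e3 : e ∈ Y
  · exact last.mono subset_rfl (Set.insert_subset (Or.inr e3) (Set.subset_insert _ _))
  induction e using Sym2.ind with
  | _ x y =>
    rcases lt_trichotomy x y with h | h | h
    · exact main x y h e2 e3
    · exact absurd (Sym2.mk_isDiag_iff.2 h) e1
    · rw [Sym2.eq_swap] at e2 e3 ⊢
      exact main y x h e2 e3

end Pool.Agent.Lib.MP_715591_co.Fam
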