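import Pool.Agent.Lib.MP_715591_co.Fam.Inv

/-!
From the inductive description to strategies: a win on one board, and a play on two boards that
the first player does not win.
-/

namespace Pool.Agent.Lib.MP_715591_co.Fam

open Classical

/-- moves of one parity before a given time -/
def pt2 {α : Type} (m : ℕ → α) (r n : ℕ) : Set α := {e | ∃ i < n, i % 2 = r ∧ m i = e}

theorem exists_move {X Y : Set E} (hX : X.Finite) (hY : Y.Finite) {e : E} (h1 : ¬ e.IsDiag)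
    (h2 : e ∉ Y) : ∃ g : E, ¬ g.IsDiag ∧ g ∉ X ∧ g ∉ Y ∧ e ∈ insert g X := by
  by_cases h : e ∈ X
  · obtain ⟨g, g1, g2⟩ := exists_free (hX.union hY)
    exact ⟨g, g1, fun k => g2 (Or.inl k), fun k => g2 (Or.inr k), Or.inr h⟩
  · exact ⟨e, h1, h, h2, Or.inl rfl⟩

/-- a winning strategy from a position -/
def WS (X Y : Set E) : Prop := ∃ σ : List E → E, ∀ m : ℕ → E,
  (∀ n, m (2 * n) = σ ((List.range (2 * n)).map m)) →
  (∀ n, ¬ (m (2 * n + 1)).IsDiag ∧ m (2 * n + 1) ∉ X ∧ ∀ i, i < 2 * n + 1 → m i ≠ m (2 * n + 1)) →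
  ∃ N, (∀ j, j ≤ N → j % 2 = 0 → ¬ (m j).IsDiag ∧ m j ∉ X ∧ m j ∉ Y ∧ ∀ i, i < j → m i ≠ m j) ∧
    Win (X ∪ pt2 m 0 (N + 1)) ∧ ¬ Win (Y ∪ pt2 m 1 N)

theorem ws_of_gm {r : ℕ} {X Y : Set E} (h : Gm r X Y) : 2 ≤ r → ∀ X', X ⊆ X' → X'.Finite →
    Y.Finite → ¬ Win Y → WS X' Y := by
  induction h with
  | now r X Y e h1 h2 h3 =>
    intro _ X' hX fX fY nY
    obtain ⟨g, g1, g2, g3, g4⟩ := exists_move fX fY h1 h2
    refine ⟨fun _ => g, fun m k1 _ => ⟨0, fun j hj _ => ?_, h3.mono ?_, fun k => nY (k.mono ?_)⟩⟩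
    · obtain rfl : j = 0 := by omega
      rw [show m 0 = g from k1 0]
      exact ⟨g1, g2, g3, fun i hi => by omega⟩
    · refine (Set.insert_subset g4 (hX.trans (Set.subset_insert _ _))).trans ?_
      rintro z (rfl | hz)
      exacts [Or.inr ⟨0, by omega, rfl, k1 0⟩, Or.inl hz]
    · rintro z (hz | ⟨i, hi, -⟩)
      exacts [hz, by omega]
  | pump X Y h => exact fun h => absurd h (by omega)
  | step r X Y e h1 h2 h3 _ _ ih _ =>
    intro hr X' hX fX fY _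
    obtain ⟨g, g1, g2, g3, g4⟩ := exists_move fX fY h1 h2
    have hs : insert e X ⊆ insert g X' := Set.insert_subset g4 (hX.trans (Set.subset_insert _ _))
    have all : ∀ f : E, ¬ f.IsDiag ∧ f ∉ insert g X' → WS (insert g X') (insert f Y) := fun f hf =>
      ih f hf.1 (fun k => hf.2 (hs k)) hr _ hs (fX.insert g) (fY.insert f)
        (h3.no fun k => hf.2 (hs k))
    choose! τ hτ using all
    refine ⟨fun l => if l.length = 0 then g else τ (l.getD 1 g) (l.drop 2), fun m k1 k2 => ?_⟩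
    have m0 : m 0 = g := k1 0
    obtain ⟨a1, a2, a3⟩ := k2 0
    have leg : ¬ (m 1).IsDiag ∧ m 1 ∉ insert g X' := ⟨a1, by
      rintro (k | k)
      exacts [a3 0 (by omega) (m0.trans k.symm), a2 k]⟩
    obtain ⟨N, b1, b2, b3⟩ := hτ (m 1) leg (fun i => m (i + 2)) (fun n => by
      have := k1 (n + 1)
      rw [show 2 * (n + 1) = 2 * n + 1 + 1 by ring, List.range_succ_eq_map,
        List.range_succ_eq_map] at this
      simpa [Function.comp_def, add_assoc] using this) (fun n => by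
      obtain ⟨c1, c2, c3⟩ := k2 (n + 1)
      rw [show 2 * (n + 1) + 1 = 2 * n + 1 + 2 by ring] at c1 c2 c3
      refine ⟨c1, ?_, fun i hi => c3 (i + 2) (by omega)⟩
      rintro (k | k)
      exacts [c3 0 (by omega) (m0.trans k.symm), c2 k])
    refine ⟨N + 2, fun j hj h2 => ?_, b2.mono ?_, fun k => b3 (k.mono ?_)⟩
    · rcases j with _ | _ | j
      · rw [m0]; exact ⟨g1, g2, g3, fun i hi => by omega⟩
      · omega
      · obtain ⟨c1, c2, c3, c4⟩ := b1 j (by omega) (by omega)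
        refine ⟨c1, fun k => c2 (Or.inr k), fun k => c3 (Or.inr k), fun i hi => ?_⟩
        rcases i with _ | _ | i
        exacts [fun k => c2 (Or.inl (k.symm.trans m0)), fun k => c3 (Or.inl k.symm),
          c4 i (by omega)]
    · rintro z ((rfl | hz) | ⟨i, hi, h2, rfl⟩)
      exacts [Or.inr ⟨0, by omega, rfl, m0⟩, Or.inl hz, Or.inr ⟨i + 2, by omega, by omega, rfl⟩]
    · rintro z (hz | ⟨i, hi, h2, rfl⟩)
      · exact Or.inl (Or.inr hz)
      · rcases i with _ | _ | i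
        exacts [by omega, Or.inl (Or.inl rfl), Or.inr ⟨i, by omega, by omega, rfl⟩]

theorem pt2_finite {α : Type} (m : ℕ → α) (r n : ℕ) : (pt2 m r n).Finite :=
  ((Set.finite_Iio n).image m).subset fun _ ⟨i, hi, _, h⟩ => ⟨i, hi, h⟩

theorem pt2_hit {α : Type} (m : ℕ → α) {r n : ℕ} (h : n % 2 = r) :
    pt2 m r (n + 1) = insert (m n) (pt2 m r n) := by
  ext e
  constructor
  · rintro ⟨i, hi, h1, rfl⟩
    rcases Nat.lt_succ_iff_lt_or_eq.1 hi with hi | rfl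
    exacts [Or.inr ⟨i, hi, h1, rfl⟩, Or.inl rfl]
  · rintro (rfl | ⟨i, hi, h1, rfl⟩)
    exacts [⟨n, by omega, h, rfl⟩, ⟨i, by omega, h1, rfl⟩]

theorem pt2_miss {α : Type} (m : ℕ → α) {r n : ℕ} (h : n % 2 ≠ r) :
    pt2 m r (n + 1) = pt2 m r n := by
  ext e
  constructor
  · rintro ⟨i, hi, h1, rfl⟩
    rcases Nat.lt_succ_iff_lt_or_eq.1 hi with hi | rfl
    exacts [⟨i, hi, h1, rfl⟩, absurd h1 h]
  · rintro ⟨i, hi, h1, rfl⟩
    exact ⟨i, by omega, h1, rfl⟩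

theorem exists_play2 {α : Type} (σ : List α → α) (τ : Set α → Set α → α) : ∃ m : ℕ → α,
    (∀ n, m (2 * n) = σ ((List.range (2 * n)).map m)) ∧
    ∀ n, m (2 * n + 1) = τ (pt2 m 0 (2 * n + 1)) (pt2 m 1 (2 * n + 1)) := by
  let nx : List α → α := fun l => if l.length % 2 = 0 then σ l else
    τ (pt2 (fun i => l.getD i (σ [])) 0 l.length) (pt2 (fun i => l.getD i (σ [])) 1 l.length)
  let h : ℕ → List α := fun n => Nat.rec [] (fun _ l => l ++ [nx l]) n
  have e : ∀ n, h n = (List.range n).map fun i => nx (h i) := by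
    intro n
    induction n with
    | zero => rfl
    | succ n ih => rw [List.range_succ, List.map_append, ← ih]; rfl
  have len : ∀ n, (h n).length = n := fun n => by rw [e]; simp
  have pt : ∀ r n, pt2 (fun i => (h n).getD i (σ [])) r n = pt2 (fun i => nx (h i)) r n := by
    intro r n
    ext z
    refine exists_congr fun i => and_congr_right fun hi => ?_
    rw [e n]
    simp [List.getD_eq_getElem?_getD, hi]
  refine ⟨fun i => nx (h i), fun n => ?_, fun n => ?_⟩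
  · rw [← e]
    exact if_pos (by rw [len]; omega)
  · show nx (h (2 * n + 1)) = _
    rw [← pt, ← pt]
    simp only [nx, len]
    exact if_neg (by omega)

theorem no_win2 {α : Type} {L : α → Prop} {W : Set α → Prop} {S : Set α → Set α → Prop}
    (hW : ∀ A B, W A → A ⊆ B → W B) (hL : ∀ A : Set α, A.Finite → ∃ g, L g ∧ g ∉ A)
    (hS : ∀ R B e, R.Finite → B.Finite → S R B → L e → e ∉ R → e ∉ B → ¬ W (insert e R) ∧
      ∃ g, L g ∧ g ∉ insert e R ∧ g ∉ B ∧ (W (insert g B) ∨ S (insert e R) (insert g B)))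
    (h0 : S ∅ ∅) (σ : List α → α) : ∃ m : ℕ → α,
    (∀ n, m (2 * n) = σ ((List.range (2 * n)).map m)) ∧
    (∀ n, L (m (2 * n + 1)) ∧ ∀ i, i < 2 * n + 1 → m i ≠ m (2 * n + 1)) ∧
    ∀ N, (∀ j, j ≤ N → Even j → L (m j) ∧ ∀ i, i < j → m i ≠ m j) →
      W (pt2 m 0 (N + 1)) → W (pt2 m 1 N) := by
  have ex : ∀ R B : Set α, ∃ f, R.Finite → B.Finite → L f ∧ f ∉ R ∧ f ∉ B ∧
      (W B ∨ (∃ g, L g ∧ g ∉ R ∧ g ∉ B ∧ (W (insert g B) ∨ S R (insert g B))) →
        W (insert f B) ∨ S R (insert f B)) := by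
    intro R B
    by_cases hG : ∃ g, L g ∧ g ∉ R ∧ g ∉ B ∧ (W (insert g B) ∨ S R (insert g B))
    · obtain ⟨g, g1, g2, g3, g4⟩ := hG
      exact ⟨g, fun _ _ => ⟨g1, g2, g3, fun _ => g4⟩⟩
    by_cases hf : R.Finite ∧ B.Finite
    · obtain ⟨g, g1, g2⟩ := hL _ (hf.1.union hf.2)
      exact ⟨g, fun _ _ => ⟨g1, fun k => g2 (Or.inl k), fun k => g2 (Or.inr k),
        fun k => Or.inl (hW _ _ (k.resolve_right hG) (Set.subset_insert _ _))⟩⟩
    · exact ⟨σ [], fun a b => absurd ⟨a, b⟩ hf⟩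
  choose τ hτ using ex
  obtain ⟨m, h1, h2⟩ := exists_play2 σ τ
  have ans := fun n => hτ _ _ (pt2_finite m 0 (2 * n + 1)) (pt2_finite m 1 (2 * n + 1))
  simp only [← h2] at ans
  refine ⟨m, h1, fun n => ⟨(ans n).1, fun i hi e => ?_⟩, fun N hN hH => ?_⟩
  · rcases Nat.mod_two_eq_zero_or_one i with h | h
    exacts [(ans n).2.1 ⟨i, hi, h, e⟩, (ans n).2.2.1 ⟨i, hi, h, e⟩]
  have step := fun n (hn : 2 * n ≤ N) (hs : S (pt2 m 0 (2 * n)) (pt2 m 1 (2 * n))) =>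
    hS _ _ (m (2 * n)) (pt2_finite _ _ _) (pt2_finite _ _ _) hs (hN (2 * n) hn (even_two_mul n)).1
      (fun ⟨i, hi, _, e⟩ => (hN (2 * n) hn (even_two_mul n)).2 i hi e)
      fun ⟨i, hi, _, e⟩ => (hN (2 * n) hn (even_two_mul n)).2 i hi e
  have inv : ∀ n, 2 * n ≤ N → W (pt2 m 1 (2 * n)) ∨ S (pt2 m 0 (2 * n)) (pt2 m 1 (2 * n)) := by
    intro n
    induction n with
    | zero =>
      intro _
      have : ∀ r, pt2 m r (2 * 0) = ∅ := fun r => Set.eq_empty_of_forall_notMem fun _ ⟨i, hi, _⟩ => by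
        omega
      rw [this, this]
      exact Or.inr h0
    | succ n ih =>
      intro hn
      rw [show 2 * (n + 1) = 2 * n + 1 + 1 by ring, pt2_hit m (r := 1) (by omega),
        pt2_miss m (r := 0) (by omega)]
      refine (ans n).2.2.2 ?_
      rw [pt2_hit m (r := 0) (by omega), pt2_miss m (r := 1) (by omega)]
      exact (ih (by omega)).imp_right fun k => (step n (by omega) k).2
  rcases inv (N / 2) (by omega) with h | h
  · refine hW _ _ h ?_
    rintro _ ⟨i, hi, a, rfl⟩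
    exact ⟨i, by omega, a, rfl⟩
  · refine absurd (hW _ _ hH ?_) (step _ (by omega) h).1
    rw [← pt2_hit m (by omega)]
    rintro _ ⟨i, hi, a, rfl⟩
    exact ⟨i, by omega, a, rfl⟩

/-- the state of the board where the first player started: `A` is his set, `C` the blocks -/
def Q1 (r : ℕ) (A C : Set E) : Prop := (∀ e ∈ A, e ∉ C) ∧ NW C A ∧
  (r = 0 ∨ A.ncard + r ≤ 8 ∨ (r = 1 ∧ ∃ x y, Inv x y A C))

/-- two boards, first player to move -/
def S2 (A C Y X : Set E) : Prop := ∃ r, Q1 r A C ∧ YN r X Y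

/-- two boards, second player to move on the second board -/
def G2 (A C Y X : Set E) : Prop := ∃ r, Gm r X Y ∧ ∀ s, r = s + 1 → Q1 s A C

theorem G2.move {A C Y X : Set E} (h : G2 A C Y X) (hX : X.Finite) (hY : Y.Finite) :
    ∃ g : E, ¬ g.IsDiag ∧ g ∉ X ∧ g ∉ Y ∧ (Win (insert g X) ∨ S2 A C Y (insert g X)) := by
  obtain ⟨r, h1, h2⟩ := h
  obtain ⟨e, e1, e2, e3⟩ := h1.unfold
  obtain ⟨g, g1, g2, g3, g4⟩ := exists_move hX hY e1 e2
  have hs : insert e X ⊆ insert g X := Set.insert_subset g4 (Set.subset_insert _ _)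
  exact ⟨g, g1, g2, g3, e3.imp (fun k => k.mono hs)
    fun ⟨s, k1, k2⟩ => ⟨s, h2 s k1, k2.mono hs subset_rfl⟩⟩

theorem S2.first {A C Y X : Set E} (h : S2 A C Y X) (hA : A.Finite) {f : E} (hf : f ∉ C) :
    G2 (insert f A) C Y X ∨ ∃ g : E, ¬ g.IsDiag ∧ g ∉ insert f A ∧ g ∉ C ∧
      S2 (insert f A) (insert g C) Y X := by
  obtain ⟨r, ⟨hd, hn, hq⟩, hy⟩ := h
  have hd' : ∀ e ∈ insert f A, e ∉ C := by
    rintro e (rfl | he)
    exacts [hf, hd e he]
  have c1 := Set.ncard_insert_le f A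
  rcases r with _ | r
  · exact Or.inl ⟨0, hy.2.2, fun s hs => by omega⟩
  have hq := hq.resolve_left (by omega)
  by_cases ht : Thr (insert f A) C 2
  · refine Or.inl ⟨r + 1, hy.2.2, fun s hs => ⟨hd', ⟨ht, ?_⟩, ?_⟩⟩
    · rcases hq with hq | ⟨-, x, y, hq⟩
      exacts [nm_of_card (hA.insert f) (by omega), nm_of_cover hq.1 f]
    · rcases hq with hq | hq
      exacts [Or.inr (Or.inl (by omega)), Or.inl (by omega)]
  obtain ⟨hr, x, y, hI⟩ : r + 1 = 1 ∧ ∃ x y, Inv x y A C := by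
    refine hq.elim (fun hq => ?_) id
    obtain ⟨g, -, x, y, P, hP, hb⟩ : ∃ g ∉ C, HasH (insert g (insert f A)) := by
      by_contra k
      exact ht (thr2_iff.2 ⟨(thr2_iff.1 hn.1).2 f hf, fun g hg j => k ⟨g, hg, j⟩⟩)
    have := book_count ((hA.insert f).insert g) hb
    have := Set.ncard_insert_le g (insert f A)
    exact ⟨by omega, x, y, inv_of_inT hP hb fun e he =>
      inT_of_card (hA.insert f) (by omega) hP hb e (Or.inr he)⟩
  obtain ⟨g, P, g1, g2, hb, -, gT, hI', ht'⟩ := inv_step hI hd hn.1 hf ht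
  refine Or.inr ⟨g, inT_nd hb gT, g2, g1, r + 1, ⟨?_, ⟨ht', nm_of_cover hI.1 f⟩,
    Or.inr (Or.inr ⟨hr, x, y, hI'⟩)⟩, hy⟩
  rintro e he (rfl | k)
  exacts [g2 he, hd' e he k]

/-- vertices of two boards -/
abbrev V := ℕ ⊕ ℕ

/-- edges of the two boards -/
def Lg (e : Sym2 V) : Prop := ∃ x y : V, x ≠ y ∧ x.isLeft = y.isLeft ∧ e = s(x, y)

/-- the part of an edge set on one board -/
def pull (ι : ℕ → V) (S : Set (Sym2 V)) : Set E := Sym2.map ι ⁻¹' S

/-- a target on one of the boards -/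
def WinV (S : Set (Sym2 V)) : Prop := Win (pull Sum.inl S) ∨ Win (pull Sum.inr S)

/-- an order of the two boards -/
def Ori (ι κ : ℕ → V) : Prop := (ι = Sum.inl ∧ κ = Sum.inr) ∨ (ι = Sum.inr ∧ κ = Sum.inl)

theorem Ori.symm {ι κ : ℕ → V} (h : Ori ι κ) : Ori κ ι := Or.symm (h.imp And.symm And.symm)

theorem Ori.inj {ι κ : ℕ → V} (h : Ori ι κ) : Function.Injective ι := by
  rcases h with ⟨rfl, -⟩ | ⟨rfl, -⟩
  exacts [Sum.inl_injective, Sum.inr_injective]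

theorem Ori.lg {ι κ : ℕ → V} (h : Ori ι κ) {f : E} (hf : ¬ f.IsDiag) : Lg (Sym2.map ι f) := by
  induction f using Sym2.ind with
  | _ a b =>
    refine ⟨ι a, ι b, fun k => hf (Sym2.mk_isDiag_iff.2 (h.inj k)), ?_, rfl⟩
    rcases h with ⟨rfl, -⟩ | ⟨rfl, -⟩ <;> rfl

theorem Ori.win {ι κ : ℕ → V} (h : Ori ι κ) (S : Set (Sym2 V)) :
    WinV S ↔ Win (pull ι S) ∨ Win (pull κ S) := by
  rcases h with ⟨rfl, rfl⟩ | ⟨rfl, rfl⟩
  exacts [Iff.rfl, or_comm]

theorem Ori.same {ι κ : ℕ → V} (h : Ori ι κ) (S : Set (Sym2 V)) (f : E) :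
    pull ι (insert (Sym2.map ι f) S) = insert f (pull ι S) := by
  ext z
  simp only [pull, Set.mem_preimage, Set.mem_insert_iff, (Sym2.map.injective h.inj).eq_iff]

theorem Ori.other {ι κ : ℕ → V} (h : Ori ι κ) (S : Set (Sym2 V)) (f : E) :
    pull κ (insert (Sym2.map ι f) S) = pull κ S := by
  ext z
  simp only [pull, Set.mem_preimage, Set.mem_insert_iff, or_iff_right_iff_imp]
  intro k
  exfalso
  induction z using Sym2.ind with
  | _ a b =>
    induction f using Sym2.ind with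
    | _ c d => rcases h with ⟨rfl, rfl⟩ | ⟨rfl, rfl⟩ <;> simp at k

theorem Ori.fin {ι κ : ℕ → V} (h : Ori ι κ) {S : Set (Sym2 V)} (hS : S.Finite) :
    (pull ι S).Finite := hS.preimage (Sym2.map.injective h.inj).injOn

theorem Lg.side {e : Sym2 V} (h : Lg e) :
    ∃ ι κ, Ori ι κ ∧ ∃ f : E, ¬ f.IsDiag ∧ e = Sym2.map ι f := by
  obtain ⟨x | x, y | y, h1, h2, rfl⟩ := h
  · exact ⟨_, _, Or.inl ⟨rfl, rfl⟩, s(x, y), by simpa using h1, rfl⟩
  · simp at h2
  · simp at h2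
  · exact ⟨_, _, Or.inr ⟨rfl, rfl⟩, s(x, y), by simpa using h1, rfl⟩

/-- safe positions on two boards -/
def SafeV (R B : Set (Sym2 V)) : Prop := (R = ∅ ∧ B = ∅) ∨
  ∃ ι κ, Ori ι κ ∧ S2 (pull ι R) (pull ι B) (pull κ R) (pull κ B)

theorem safe_step (h0 : Gm 8 ∅ ∅) (R B : Set (Sym2 V)) (e : Sym2 V) (hR : R.Finite)
    (hB : B.Finite) (hs : SafeV R B) (hl : Lg e) (_ : e ∉ R) (eB : e ∉ B) :
    ¬ WinV (insert e R) ∧ ∃ g, Lg g ∧ g ∉ insert e R ∧ g ∉ B ∧
      (WinV (insert g B) ∨ SafeV (insert e R) (insert g B)) := by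
  have fin : ∀ ι κ, Ori ι κ →
      G2 (pull ι (insert e R)) (pull ι B) (pull κ (insert e R)) (pull κ B) →
      ∃ g, Lg g ∧ g ∉ insert e R ∧ g ∉ B ∧
        (WinV (insert g B) ∨ SafeV (insert e R) (insert g B)) := by
    intro ι κ o hg
    obtain ⟨g, g1, g2, g3, g4⟩ := hg.move (o.symm.fin hB) (o.symm.fin (hR.insert e))
    refine ⟨Sym2.map κ g, o.symm.lg g1, g3, g2, g4.imp (fun k => ?_) fun k => Or.inr ⟨ι, κ, o, ?_⟩⟩
    · rw [o.win, o.symm.same]; exact Or.inr k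
    · rwa [o.symm.same, o.symm.other]
  obtain ⟨ι', κ', o', f, f1, rfl⟩ := hl.side
  rcases hs with ⟨rfl, rfl⟩ | ⟨ι, κ, o, hs⟩
  · have e0 : ∀ ι, pull ι ∅ = ∅ := fun _ => rfl
    have nw : ∀ Y : Set E, Y.Finite → Y.ncard ≤ 1 → NW ∅ Y := fun Y h1 h2 =>
      ⟨thr_of_card h1 (by omega), nm_of_card h1 (by omega)⟩
    have n1 := nw (insert f ∅) (Set.finite_empty.insert f) (by simp)
    refine ⟨?_, fin ι' κ' o' ?_⟩
    · rw [o'.win, o'.same, o'.other, e0, e0]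
      exact fun k => k.elim n1.no0 (nw ∅ Set.finite_empty (by simp)).no0
    · rw [o'.same, o'.other, e0, e0]
      exact ⟨8, h0, fun s hs => ⟨by simp, n1, Or.inr (Or.inl (by simp; omega))⟩⟩
  have cs : ι' = ι ∨ ι' = κ := by
    rcases o with ⟨rfl, rfl⟩ | ⟨rfl, rfl⟩ <;> rcases o' with ⟨rfl, -⟩ | ⟨rfl, -⟩ <;> simp
  rcases cs with rfl | rfl
  · obtain ⟨r, q1, q2⟩ := id hs
    refine ⟨?_, ?_⟩
    · rw [o.win, o.same, o.other]
      exact fun k => k.elim (q1.2.1.no eB) q2.1.no0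
    rcases hs.first (o.fin hR) (f := f) eB with k | ⟨g, g1, g2, g3, g4⟩
    · exact fin _ _ o (by rwa [o.same, o.other])
    · refine ⟨Sym2.map ι' g, o.lg g1, fun k => g2 ?_, g3, Or.inr (Or.inr ⟨_, _, o, ?_⟩)⟩
      · rw [← o.same]; exact k
      · rwa [o.same, o.same, o.other, o.other]
  · obtain ⟨r, q1, q2⟩ := hs
    refine ⟨?_, fin _ _ o ?_⟩
    · rw [o.win, o.symm.same, o.symm.other]
      exact fun k => k.elim q1.2.1.no0 (q2.1.no eB)
    · rw [o.symm.same, o.symm.other]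
      exact ⟨r + 1, q2.2.1 f f1 eB, fun s hs => by rwa [← Nat.succ.inj hs]⟩

theorem lg_free (A : Set (Sym2 V)) (hA : A.Finite) : ∃ g, Lg g ∧ g ∉ A := by
  have o : Ori Sum.inl Sum.inr := Or.inl ⟨rfl, rfl⟩
  obtain ⟨f, f1, f2⟩ := exists_free (o.fin hA)
  exact ⟨_, o.lg f1, f2⟩

theorem WinV.mono (A B : Set (Sym2 V)) (h : WinV A) (k : A ⊆ B) : WinV B :=
  h.imp (fun h => h.mono (Set.preimage_mono k)) fun h => h.mono (Set.preimage_mono k)

end Pool.Agent.Lib.MP_715591_co.Fam
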