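import Pool.Agent.Lib.MP_715591_co.Play
import Pool.Agent.Lib.MP_715591_co.Fam.Play

/-!
The two targets as graphs.
-/

namespace Pool.Agent.Lib.MP_715591_co.Fam

open Classical

theorem hasM_iff {H : SimpleGraph (Fin 56)}
    (hH : ∀ a b, H.Adj a b ↔ a ≠ b ∧
      ((a.val < 2 ∧ b.val < 4) ∨ (b.val < 2 ∧ a.val < 4) ∨ (a.val = 2 ∧ b.val = 4) ∨
        (b.val = 2 ∧ a.val = 4) ∨ (a.val = 5 ∧ 4 ≤ b.val) ∨ (b.val = 5 ∧ 4 ≤ a.val))) (X : Set E) :
    HasM X ↔ ∃ f : Fin 56 → ℕ, Function.Injective f ∧ ∀ a b, H.Adj a b → s(f a, f b) ∈ X := by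
  constructor
  · rintro ⟨a, b, u, v, l, c, L, m⟩
    have nd : (a :: b :: u :: v :: l :: c :: L.toList).Nodup := by
      have o := m.out
      simp only [List.nodup_cons, List.mem_cons, Finset.mem_toList, not_or]
      exact ⟨⟨m.ab, m.au, m.av, m.al, m.ac, fun h => (o _ h).1 rfl⟩,
        ⟨m.bu, m.bv, m.bl, m.bc, fun h => (o _ h).2.1 rfl⟩,
        ⟨m.uv, m.ul, m.uc, fun h => (o _ h).2.2.1 rfl⟩, ⟨m.vl, m.vc, fun h => (o _ h).2.2.2.1 rfl⟩,
        ⟨m.lc, fun h => (o _ h).2.2.2.2.1 rfl⟩, fun h => (o _ h).2.2.2.2.2 rfl, L.nodup_toList⟩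
    have len : (a :: b :: u :: v :: l :: c :: L.toList).length = 56 := by simp [m.card]
    let F : ℕ → ℕ := fun i => (a :: b :: u :: v :: l :: c :: L.toList).getD i 0
    have key : ∀ x y, y < 56 → x ≠ y → ((x < 2 ∧ y < 4) ∨ (x = 2 ∧ y = 4) ∨ (x = 5 ∧ 4 ≤ y)) →
        s(F x, F y) ∈ X := by
      rintro x y hy ne (⟨h1, h2⟩ | ⟨rfl, rfl⟩ | ⟨rfl, h2⟩)
      · interval_cases x <;> interval_cases y
        exacts [absurd rfl ne, m.eab, m.eau, m.eav, sw m.eab, absurd rfl ne, m.ebu, m.ebv]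
      · exact m.eul
      · by_cases h4 : y = 4
        · subst h4; exact m.ecl
        obtain ⟨k, rfl⟩ : ∃ k, y = k + 6 := ⟨y - 6, by omega⟩
        have hk : k < L.toList.length := by rw [Finset.length_toList, m.card]; omega
        refine m.leaf (L.toList.getD k 0) ?_
        rw [List.getD_eq_getElem _ _ hk]
        exact Finset.mem_toList.1 (List.getElem_mem hk)
    refine ⟨fun i => F i.val, fun x y h => ?_, fun x y h => ?_⟩
    · have hx : x.val < (a :: b :: u :: v :: l :: c :: L.toList).length := by rw [len]; exact x.2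
      have hy : y.val < (a :: b :: u :: v :: l :: c :: L.toList).length := by rw [len]; exact y.2
      simp only [F, List.getD_eq_getElem _ _ hx, List.getD_eq_getElem _ _ hy] at h
      exact Fin.ext ((nd.getElem_inj_iff).1 h)
    · obtain ⟨ne, h⟩ := (hH x y).1 h
      have ne' : x.val ≠ y.val := fun e => ne (Fin.ext e)
      by_cases k : (x.val < 2 ∧ y.val < 4) ∨ (x.val = 2 ∧ y.val = 4) ∨ (x.val = 5 ∧ 4 ≤ y.val)
      · exact key _ _ y.2 ne' k
      · exact sw (key _ _ x.2 ne'.symm (by tauto))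
  · rintro ⟨f, hf, h⟩
    have n : ∀ {x y : Fin 56}, x ≠ y → f x ≠ f y := fun a b => a (hf b)
    have e : ∀ x y : Fin 56, H.Adj x y → s(f x, f y) ∈ X := h
    simp only [hH] at e
    refine ⟨f 0, f 1, f 2, f 3, f 4, f 5, (Finset.Ici 6).map ⟨f, hf⟩, by simp, n (by decide),
      n (by decide), n (by decide), n (by decide), n (by decide), n (by decide), n (by decide),
      n (by decide), n (by decide), n (by decide), n (by decide), n (by decide), n (by decide),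
      n (by decide), n (by decide), fun w hw => ?_, e _ _ (by decide), e _ _ (by decide),
      e _ _ (by decide), e _ _ (by decide), e _ _ (by decide), e _ _ (by decide), e _ _ (by decide),
      fun w hw => ?_⟩
    all_goals
      obtain ⟨x, hx, rfl⟩ := Finset.mem_map.1 hw
      have h6 : 6 ≤ x.val := (Finset.mem_Ici.1 hx : (6 : Fin 56) ≤ x)
      have k : ∀ y : Fin 56, y.val < 6 → x ≠ y := fun y hy a => by rw [a] at h6; omega
    · exact ⟨n (k _ (by decide)), n (k _ (by decide)), n (k _ (by decide)), n (k _ (by decide)),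
        n (k _ (by decide)), n (k _ (by decide))⟩
    · exact e 5 x ⟨(k _ (by decide)).symm, Or.inr (Or.inr (Or.inr (Or.inr (Or.inl
        ⟨rfl, by omega⟩))))⟩

theorem conn1 {H : SimpleGraph (Fin 6)}
    (hH : ∀ a b, H.Adj a b ↔ a ≠ b ∧ (a.val < 2 ∨ b.val < 2)) : H.Connected := by
  refine (SimpleGraph.connected_iff_exists_forall_reachable H).2 ⟨0, fun w => ?_⟩
  by_cases h : 0 = w
  · exact h ▸ SimpleGraph.Reachable.refl _
  · exact ((hH 0 w).2 ⟨h, Or.inl (by decide)⟩).reachable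

theorem conn2 {H : SimpleGraph (Fin 56)}
    (hH : ∀ a b, H.Adj a b ↔ a ≠ b ∧
      ((a.val < 2 ∧ b.val < 4) ∨ (b.val < 2 ∧ a.val < 4) ∨ (a.val = 2 ∧ b.val = 4) ∨
        (b.val = 2 ∧ a.val = 4) ∨ (a.val = 5 ∧ 4 ≤ b.val) ∨ (b.val = 5 ∧ 4 ≤ a.val))) :
    H.Connected := by
  refine (SimpleGraph.connected_iff_exists_forall_reachable H).2 ⟨0, fun w => ?_⟩
  have r5 : H.Reachable 0 5 := (((hH 0 2).2 (by decide)).reachable.trans
    ((hH 2 4).2 (by decide)).reachable).trans ((hH 4 5).2 (by decide)).reachable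
  by_cases h : 0 = w
  · exact h ▸ SimpleGraph.Reachable.refl _
  by_cases h4 : w.val < 4
  · exact ((hH 0 w).2 ⟨h, Or.inl ⟨by decide, h4⟩⟩).reachable
  by_cases h5 : 5 = w
  · exact h5 ▸ r5
  · exact r5.trans ((hH 5 w).2 ⟨h5, Or.inr (Or.inr (Or.inr (Or.inr (Or.inl
      ⟨rfl, by omega⟩))))⟩).reachable

theorem copy_side {k : ℕ} {H : SimpleGraph (Fin k)} (hc : H.Connected) {S : Set (Sym2 V)}
    (hS : ∀ e ∈ S, Lg e) {f : Fin k → V} (hf : Function.Injective f)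
    (h : ∀ a b, H.Adj a b → s(f a, f b) ∈ S) : ∃ ι κ, Ori ι κ ∧
      ∃ g : Fin k → ℕ, Function.Injective g ∧ ∀ a b, H.Adj a b → s(g a, g b) ∈ pull ι S := by
  have adj : ∀ a b, H.Adj a b → (f a).isLeft = (f b).isLeft := fun a b hab => by
    obtain ⟨x, y, -, h2, h3⟩ := hS _ (h a b hab)
    rcases Sym2.eq_iff.1 h3 with ⟨e1, e2⟩ | ⟨e1, e2⟩ <;> rw [e1, e2, h2]
  have all : ∀ a b, (f a).isLeft = (f b).isLeft := fun a b => by
    obtain ⟨w⟩ := hc.preconnected a b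
    induction w with
    | nil => rfl
    | cons h _ ih => exact (adj _ _ h).trans ih
  obtain ⟨a⟩ := hc.nonempty
  have fin : ∀ ι κ, Ori ι κ → (∀ b, ∃ n, f b = ι n) → ∃ ι κ, Ori ι κ ∧
      ∃ g : Fin k → ℕ, Function.Injective g ∧ ∀ a b, H.Adj a b → s(g a, g b) ∈ pull ι S := by
    intro ι κ o hι
    choose g hg using hι
    refine ⟨ι, κ, o, g, fun x y e => hf (by rw [hg, hg, e]), fun x y e => ?_⟩
    have := h x y e
    rwa [hg, hg] at this
  cases ha : (f a).isLeft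
  · exact fin _ _ (Or.inr ⟨rfl, rfl⟩) fun b =>
      Sum.isRight_iff.1 (Sum.isLeft_eq_false.1 ((all b a).trans ha))
  · exact fin _ _ (Or.inl ⟨rfl, rfl⟩) fun b => Sum.isLeft_iff.1 ((all b a).trans ha)

theorem copy_lift {k : ℕ} {H : SimpleGraph (Fin k)} {S : Set (Sym2 V)} {ι κ : ℕ → V} (o : Ori ι κ)
    (h : ∃ g : Fin k → ℕ, Function.Injective g ∧ ∀ a b, H.Adj a b → s(g a, g b) ∈ pull ι S) :
    ∃ f : Fin k → V, Function.Injective f ∧ ∀ a b, H.Adj a b → s(f a, f b) ∈ S :=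
  let ⟨g, h1, h2⟩ := h; ⟨ι ∘ g, o.inj.comp h1, h2⟩

end Pool.Agent.Lib.MP_715591_co.Fam
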