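import Pool.Agent.Lib.MP_715591_co.Fam.Lem

/-!
Positions in which all edges of the opponent meet two vertices: single threats only, and
finitely many of them when the other player owns a three page book on the same board.
-/

namespace Pool.Agent.Lib.MP_715591_co.Fam

open Classical

/-- all edges of `Y` meet `x` or `y`, and at most four pages are touched and alive -/
def Inv (x y : ℕ) (Y X : Set E) : Prop := (∀ e ∈ Y, x ∈ e ∨ y ∈ e) ∧
  ∃ U : Finset ℕ, U.card ≤ 4 ∧ ∀ w, w ≠ x → w ≠ y → (s(x, w) ∈ Y ∨ s(y, w) ∈ Y) →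
    s(x, w) ∉ X → s(y, w) ∉ X → w ∈ U

theorem thr2_iff {X Y : Set E} : Thr Y X 2 ↔ ¬ HasH Y ∧ ∀ g ∉ X, ¬ HasH (insert g Y) := by
  refine ⟨fun h => ⟨h.noH (by omega), fun g hg => (h.step (c' := 1) le_rfl hg).noH le_rfl⟩,
    fun h F h1 h2 => ?_⟩
  rcases F.eq_empty_or_nonempty with rfl | ⟨g, hg⟩
  · simpa using h.1
  · refine fun k => h.2 g (h2 g hg) (k.mono ?_)
    rintro e (a | a)
    exacts [Or.inr a, Or.inl (Finset.card_le_one.1 (by omega) _ a _ hg)]

theorem inT_touch {x y : ℕ} {P : Finset ℕ} {e : E} (h : InT x y P e) : x ∈ e ∨ y ∈ e := by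
  rcases h with rfl | ⟨w, -, rfl | rfl⟩ <;> simp

theorem inT_nd {S : Set E} {x y : ℕ} {P : Finset ℕ} {e : E} (hb : Book S x y P)
    (h : InT x y P e) : ¬ e.IsDiag := by
  rcases h with rfl | ⟨w, hw, rfl | rfl⟩ <;> rw [Sym2.mk_isDiag_iff]
  exacts [hb.1, fun a => hb.2.1 (a ▸ hw), fun a => hb.2.2.1 (a ▸ hw)]

theorem inT_page {S : Set E} {x y w : ℕ} {P : Finset ℕ} {e : E} (_ : Book S x y P)
    (h : InT x y P e) (hw : w ∈ e) (hx : w ≠ x) (hy : w ≠ y) : w ∈ P := by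
  rcases h with rfl | ⟨z, hz, rfl | rfl⟩ <;> rcases Sym2.mem_iff.1 hw with k | k
  exacts [absurd k hx, absurd k hy, absurd k hx, k ▸ hz, absurd k hy, k ▸ hz]

theorem inv_of_inT {S Y X : Set E} {x y : ℕ} {P : Finset ℕ} (hc : P.card = 4) (hb : Book S x y P)
    (h : ∀ e ∈ Y, InT x y P e) : Inv x y Y X :=
  ⟨fun e he => inT_touch (h e he), P, hc.le, fun _ h1 h2 k _ _ => k.elim
    (fun k => inT_page hb (h _ k) (Sym2.mem_mk_right _ _) h1 h2)
    fun k => inT_page hb (h _ k) (Sym2.mem_mk_right _ _) h1 h2⟩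

theorem page_ne {S : Set E} {x y w z : ℕ} {P : Finset ℕ} (hb : Book S x y P) (hw : w ≠ y ∨ z ≠ x) :
    s(x, w) ≠ s(y, z) := fun h => by
  rcases Sym2.eq_iff.1 h with h | h
  exacts [hb.1 h.1, hw.elim (fun a => a h.2) fun a => a h.1.symm]

theorem inv_step {x y : ℕ} {X Y : Set E} {f : E} (hI : Inv x y Y X) (hd : ∀ e ∈ Y, e ∉ X)
    (ht : Thr Y X 2) (hf : f ∉ X) (hn : ¬ Thr (insert f Y) X 2) :
    ∃ (g : E) (P : Finset ℕ), g ∉ X ∧ g ∉ insert f Y ∧ Book (insert g (insert f Y)) x y P ∧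
      InT x y P f ∧ InT x y P g ∧ Inv x y (insert f Y) (insert g X) ∧
      Thr (insert f Y) (insert g X) 2 := by
  obtain ⟨hcov, U, hU, hI⟩ := hI
  rw [thr2_iff] at ht hn
  have n0 := ht.2 f hf
  obtain ⟨g, hg, hH⟩ : ∃ g ∉ X, HasH (insert g (insert f Y)) := by
    by_contra k
    exact hn ⟨n0, fun g hg a => k ⟨g, hg, a⟩⟩
  obtain ⟨P, hc, hb⟩ := book_of_cover (x := x) (y := y) (f := f) (g := g) (by
    rintro e (rfl | rfl | he)
    exacts [by simp, by simp, (hcov e he).imp_right Or.inl]) hH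
  have gn : g ∉ insert f Y := fun a => n0 (by rwa [Set.insert_eq_of_mem a] at hH)
  have fT : InT x y P f := by
    by_contra k
    refine ht.2 g hg ⟨x, y, P, hc, hb.of_inT ?_⟩
    rintro e he (a | rfl | a)
    exacts [Or.inl a, absurd he k, Or.inr a]
  have gT : InT x y P g := by
    by_contra k
    refine n0 ⟨x, y, P, hc, hb.of_inT ?_⟩
    rintro e he (rfl | a)
    exacts [absurd he k, a]
  have nX : ∀ e ∈ insert g (insert f Y), e ∉ X := by
    rintro e (rfl | rfl | a)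
    exacts [hg, hf, hd e a]
  have live : ∀ w, w ≠ x → w ≠ y → (s(x, w) ∈ insert f Y ∨ s(y, w) ∈ insert f Y) → s(x, w) ∉ X →
      s(y, w) ∉ X → w ∈ P := by
    intro w wx wy hw l1 l2
    by_contra wP
    have tY : s(x, w) ∈ Y ∨ s(y, w) ∈ Y := hw.imp
      (fun a => a.resolve_left fun k => wP (inT_page hb fT (k ▸ Sym2.mem_mk_right _ _) wx wy))
      fun a => a.resolve_left fun k => wP (inT_page hb fT (k ▸ Sym2.mem_mk_right _ _) wx wy)
    by_cases hA : ∀ p ∈ P, s(x, p) ∈ Y ∨ s(y, p) ∈ Y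
    · have : insert w P ⊆ U := by
        intro p hp
        rcases Finset.mem_insert.1 hp with rfl | hp
        · exact hI _ wx wy tY l1 l2
        · exact hI p (fun a => hb.2.1 (a ▸ hp)) (fun a => hb.2.2.1 (a ▸ hp)) (hA p hp)
            (nX _ (hb.2.2.2.2 p hp).1) (nX _ (hb.2.2.2.2 p hp).2)
      have := Finset.card_le_card this
      rw [Finset.card_insert_of_notMem wP] at this
      omega
    · push Not at hA
      obtain ⟨p, hp, p1, p2⟩ := hA
      have px : p ≠ x := fun a => hb.2.1 (a ▸ hp)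
      have py : p ≠ y := fun a => hb.2.2.1 (a ▸ hp)
      have ne := page_ne (w := p) (z := p) hb (Or.inl py)
      have pf : p ∈ f ∧ p ∈ g := by
        rcases (hb.2.2.2.2 p hp).1 with a | a | a <;> rcases (hb.2.2.2.2 p hp).2 with b | b | b
        all_goals first
          | exact absurd a p1
          | exact absurd b p2
          | exact absurd (a.trans b.symm) ne
          | exact ⟨a ▸ Sym2.mem_mk_right _ _, b ▸ Sym2.mem_mk_right _ _⟩
          | exact ⟨b ▸ Sym2.mem_mk_right _ _, a ▸ Sym2.mem_mk_right _ _⟩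
      have b3 : Book Y x y (P.erase p) := hb.erase (fun a b ha hb' k => by
        rcases k with k | k | k
        · exact absurd (k ▸ pf.2 : p ∈ s(a, b)) (by simp [ha.symm, hb'.symm])
        · exact absurd (k ▸ pf.1 : p ∈ s(a, b)) (by simp [ha.symm, hb'.symm])
        · exact k) px.symm py.symm
      have c4 : (insert w (P.erase p)).card = 4 := by
        rw [Finset.card_insert_of_notMem fun a => wP (Finset.mem_of_mem_erase a),
          Finset.card_erase_of_mem hp, hc]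
      rcases tY with k | k
      · exact ht.2 _ l2 ⟨x, y, _, c4, book_add (b3.mono (Set.subset_insert _ _)) wx.symm wy.symm
          (Or.inr k) (Or.inl rfl)⟩
      · exact ht.2 _ l1 ⟨x, y, _, c4, book_add (b3.mono (Set.subset_insert _ _)) wx.symm wy.symm
          (Or.inl rfl) (Or.inr k)⟩
  have cov : ∀ e ∈ insert f Y, x ∈ e ∨ y ∈ e := by
    rintro e (rfl | he)
    exacts [inT_touch fT, hcov e he]
  refine ⟨g, P, hg, gn, hb, fT, gT, ⟨cov, P, hc.le, fun w h1 h2 h3 h4 h5 =>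
    live w h1 h2 h3 (fun a => h4 (Or.inr a)) fun a => h5 (Or.inr a)⟩, thr2_iff.2 ⟨n0, ?_⟩⟩
  intro g' hg' hH'
  obtain ⟨Q, hQ, hq⟩ := book_of_cover (x := x) (y := y) (f := g') (g := g') (by
    rintro e (rfl | he)
    exacts [by simp, (cov e he).imp_right Or.inl]) hH'
  have nX' : ∀ e ∈ insert g' (insert f Y), e ∉ X := by
    rintro e (rfl | a)
    exacts [fun a => hg' (Or.inr a), nX e (Or.inr a)]
  have sub : Q ⊆ P := fun p hp => by
    have py : p ≠ y := fun a => hq.2.2.1 (a ▸ hp)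
    refine live p (fun a => hq.2.1 (a ▸ hp)) py ?_ (nX' _ (hq.2.2.2.2 p hp).1)
      (nX' _ (hq.2.2.2.2 p hp).2)
    rcases (hq.2.2.2.2 p hp).1 with a | a
    · exact Or.inr ((hq.2.2.2.2 p hp).2.resolve_left fun b =>
        page_ne hq (Or.inl py) (a.trans b.symm))
    · exact Or.inl a
  rw [Finset.eq_of_subset_of_card_le sub (by omega)] at hq
  rcases hq.inT gT with a | a
  exacts [hg' (Or.inl a.symm), gn a]

theorem nd_of_cover {Y : Set E} {x y h : ℕ} {f : E} (hc : ∀ e ∈ Y, x ∈ e ∨ y ∈ e) (hx : h ≠ x)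
    (hy : h ≠ y) (hh : (∀ w, s(h, w) ∉ Y) ∨ h ∉ f) : ND (insert f Y) h 4 := by
  have cov : ∀ e ∈ insert f Y, x ∈ e ∨ y ∈ e ∨ e ∈ ({f} : Finset E) := by
    rintro e (rfl | he)
    exacts [by simp, (hc e he).imp_right Or.inl]
  have small : ∀ c, c ≠ x → c ≠ y → ¬ Big (insert f Y) c 4 := fun c h1 h2 ⟨N, n1, n2⟩ => by
    have := deg_le cov h1 h2 n2
    rw [Finset.card_singleton] at this
    omega
  have main : ∀ x y, (∀ e ∈ Y, x ∈ e ∨ y ∈ e) → h ≠ x → h ≠ y → ∀ s t, s ≠ x → t ≠ x → t ≠ y →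
      s ≠ t → s(h, s) ∈ insert f Y → s(h, t) ∈ insert f Y → False := by
    intro x y hc hx hy s t h1 h2 h3 h4 e1 e2
    have off : ∀ z, z ≠ x → z ≠ y → s(h, z) ∉ Y := fun z z1 z2 k => by
      rcases hc _ k with k | k <;> rcases Sym2.mem_iff.1 k with k | k
      exacts [hx k.symm, z1 k.symm, hy k.symm, z2 k.symm]
    have ef : s(h, t) = f := e2.resolve_right (off t h2 h3)
    have eY : s(h, s) ∈ Y := e1.resolve_left fun k => h4 (Sym2.congr_right.1 (k.trans ef.symm))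
    exact hh.elim (fun k => k _ eY) fun k => k (ef ▸ Sym2.mem_mk_left _ _)
  have both : ∀ x y, (∀ e ∈ Y, x ∈ e ∨ y ∈ e) → h ≠ x → h ≠ y → ∀ s t, s ≠ x → t ≠ x →
      s ≠ t → s(h, s) ∈ insert f Y → s(h, t) ∈ insert f Y → False := by
    intro x y hc hx hy s t h1 h2 h4 e1 e2
    by_cases k : t = y
    · exact main x y hc hx hy t s h2 h1 (fun a => h4 (a.trans k.symm)) h4.symm e2 e1
    · exact main x y hc hx hy s t h1 h2 k h4 e1 e2
  refine ⟨small h hx hy, fun c s t _ hb h1 h2 h3 _ _ e1 e2 _ => ?_⟩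
  by_cases c1 : c = x
  · exact both x y hc hx hy s t (c1 ▸ h1) (c1 ▸ h2) h3 e1 e2
  by_cases c2 : c = y
  · exact both y x (fun e he => (hc e he).symm) hy hx s t (c2 ▸ h1) (c2 ▸ h2) h3 e1 e2
  · exact small c c1 c2 (hb.mono subset_rfl (by omega))

theorem pi_of_nd {X Y : Set E} {h : ℕ} (k : ¬ Big Y h 4) : Pi Y X h 1 := by
  rintro F h1 - y ⟨P, hc, hb⟩
  rw [Finset.card_eq_zero.1 (by omega : F.card = 0), Finset.coe_empty, Set.union_empty] at hb
  exact k ⟨_, by rw [(book_nbrs hb).1, hc], (book_nbrs hb).2⟩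

theorem poison {X Y : Set E} {x y a b c : ℕ} (hcov : ∀ e ∈ Y, x ∈ e ∨ y ∈ e) (hm : Mach X a b)
    (bx : b ≠ x) (by' : b ≠ y) (hc : c = x ∨ c = y) (hB : Big X c 60) (f : E) :
    ∃ g : E, ¬ g.IsDiag ∧ g ∉ insert f Y ∧ Win (insert g X) := by
  obtain ⟨P, hP, hb⟩ := hm
  obtain ⟨N, n1, n2⟩ := hB
  have nY : ∀ u l, u ≠ x → u ≠ y → l ≠ x → l ≠ y → s(u, l) ∉ Y := fun u l h1 h2 h3 h4 k => by
    rcases hcov _ k with k | k <;> rcases Sym2.mem_iff.1 k with k | k
    exacts [h1 k.symm, h3 k.symm, h2 k.symm, h4 k.symm]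
  obtain ⟨W, hW, mW⟩ : ∃ W : Finset ℕ, 53 ≤ W.card ∧ ∀ w ∈ W, s(c, w) ∈ X ∧ w ∉ P ∧ w ≠ a ∧ w ≠ b ∧
      w ≠ x ∧ w ≠ y := by
    refine ⟨N \ insert a (insert b (insert x (insert y P))), ?_, fun w hw => ?_⟩
    · have := Finset.le_card_sdiff (insert a (insert b (insert x (insert y P)))) N
      have := Finset.card_insert_le a (insert b (insert x (insert y P)))
      have := Finset.card_insert_le b (insert x (insert y P))
      have := Finset.card_insert_le x (insert y P)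
      have := Finset.card_insert_le y P
      omega
    · simp only [Finset.mem_sdiff, Finset.mem_insert, not_or] at hw
      exact ⟨n2 w hw.1, hw.2.2.2.2.2, hw.2.1, hw.2.2.1, hw.2.2.2.1, hw.2.2.2.2.1⟩
  have pick : ∀ z, ∃ w ∈ W, s(z, w) ≠ f := fun z => by
    obtain ⟨w1, h1, w2, h2, ne⟩ := Finset.one_lt_card.1 (by omega : 1 < W.card)
    by_cases k : s(z, w1) = f
    exacts [⟨w2, h2, fun j => ne (Sym2.congr_right.1 (k.trans j.symm))⟩, ⟨w1, h1, k⟩]
  by_cases ca : c = a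
  · obtain ⟨w, hw, ne⟩ := pick b
    obtain ⟨w1, w2, w3, w4, w5, w6⟩ := mW w hw
    refine ⟨s(b, w), by simpa using w4.symm, ?_, (pump_win hP hb w3.symm w4.symm w2).mono ?_⟩
    · rintro (k | k)
      exacts [ne k, nY _ _ bx by' w5 w6 k]
    · exact Set.insert_subset_insert (Set.insert_subset (ca ▸ w1) subset_rfl)
  obtain ⟨u, hu⟩ : ((P.erase x).erase y).Nonempty := by
    have := Finset.pred_card_le_card_erase (s := P) (a := x)
    have := Finset.pred_card_le_card_erase (s := P.erase x) (a := y)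
    exact Finset.card_pos.1 (by omega)
  obtain ⟨v, hv⟩ : ((P.erase u).erase c).Nonempty := by
    have := Finset.pred_card_le_card_erase (s := P) (a := u)
    have := Finset.pred_card_le_card_erase (s := P.erase u) (a := c)
    exact Finset.card_pos.1 (by omega)
  simp only [Finset.mem_erase] at hu hv
  obtain ⟨l, hl, ne⟩ := pick u
  obtain ⟨l1, l2, l3, l4, l5, l6⟩ := mW l hl
  obtain ⟨L, hL, cL⟩ := Finset.exists_subset_card_eq (s := W.erase l) (n := 50)
    (by rw [Finset.card_erase_of_mem hl]; omega)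
  have oc : ∀ {z : ℕ}, z ≠ x → z ≠ y → z ≠ c := fun h1 h2 k => hc.elim (fun j => h1 (k.trans j))
    fun j => h2 (k.trans j)
  have ul : u ≠ l := fun k => l2 (k ▸ hu.2.2)
  refine ⟨s(u, l), by simpa using ul, ?_, Or.inr ⟨a, b, u, v, l, c, L, cL, hb.1,
    fun k => hb.2.1 (k ▸ hu.2.2), fun k => hb.2.1 (k ▸ hv.2.2), l3.symm, fun k => ca k.symm,
    fun k => hb.2.2.1 (k ▸ hu.2.2), fun k => hb.2.2.1 (k ▸ hv.2.2), l4.symm, oc bx by',
    hv.2.1.symm, ul, oc hu.2.1 hu.1, fun k => l2 (k ▸ hv.2.2), hv.1, oc l5 l6, fun w hw => ?_,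
    Or.inr hb.2.2.2.1, Or.inr (hb.2.2.2.2 u hu.2.2).1, Or.inr (hb.2.2.2.2 u hu.2.2).2,
    Or.inr (hb.2.2.2.2 v hv.2.2).1, Or.inr (hb.2.2.2.2 v hv.2.2).2, Or.inl rfl, Or.inr l1,
    fun w hw => Or.inr (mW w (Finset.mem_of_mem_erase (hL hw))).1⟩⟩
  · rintro (k | k)
    exacts [ne k, nY _ _ hu.2.1 hu.1 l5 l6 k]
  · obtain ⟨-, w2, w3, w4, w5, w6⟩ := mW w (Finset.mem_of_mem_erase (hL hw))
    exact ⟨w3, w4, fun k => w2 (k ▸ hu.2.2), fun k => w2 (k ▸ hv.2.2),
      Finset.ne_of_mem_erase (hL hw), oc w5 w6⟩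

theorem nm_of_cover {Y : Set E} {x y : ℕ} (hc : ∀ e ∈ Y, x ∈ e ∨ y ∈ e) (f : E) :
    NM (insert f Y) := fun g => noM_of_cover (x := x) (y := y) (f := f) (g := g) (by
  rintro e (rfl | rfl | he)
  exacts [by simp, by simp, (hc e he).imp_right Or.inl])

/-- the threats of the opponent run out -/
theorem tl4 {x y a b : ℕ} (bx : b ≠ x) (by' : b ≠ y) (r n : ℕ) : ∀ X Y : Set E, Y.Finite →
    (∀ e ∈ Y, e ∉ X) → Inv x y Y X → Thr Y X 2 → Opt X a b →
    (((a = x ∨ a = y) ∧ ∀ w, s(b, w) ∉ Y) ∨ (a ≠ x ∧ a ≠ y ∧ Opt X b a)) →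
    ∀ i j, Big X x i → Big X y j → 120 ≤ i + j + n → YN (r + 1) X Y := by
  induction n with
  | zero =>
    intro X Y _ _ hI ht ho _ i j hi hj hn
    have key : ∀ f, ∃ g : E, ¬ g.IsDiag ∧ g ∉ insert f Y ∧ Win (insert g X) := fun f => by
      by_cases k : 60 ≤ i
      exacts [poison hI.1 ho.1 bx by' (Or.inl rfl) (hi.mono subset_rfl k) f,
        poison hI.1 ho.1 bx by' (Or.inr rfl) (hj.mono subset_rfl (by omega)) f]
    refine ⟨⟨ht, (nm_of_cover hI.1 s(0, 0)).anti (Set.subset_insert _ _)⟩, fun f _ _ => ?_, ?_⟩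
    · obtain ⟨g, g1, g2, g3⟩ := key f
      exact Gm.now _ _ _ g g1 g2 g3
    · obtain ⟨g, g1, g2, g3⟩ := key s(0, 0)
      exact Gm.now _ _ _ g g1 (fun k => g2 (Or.inr k)) g3
  | succ n ih =>
    intro X Y hY hd hI ht ho hs i j hi hj hn
    obtain ⟨P0, -, hb0⟩ := ho.1
    have quiet : ∀ f Y', Y' ⊆ insert f Y → f ≠ s(a, b) → Thr Y' X 2 → ∀ r, Gm (r + 1) X Y' := by
      intro f Y' h1 h2 h3 r
      have go : ∀ a b, Opt X a b → b ≠ x → b ≠ y → ((∀ w, s(b, w) ∉ Y) ∨ b ∉ f) →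
          Gm (r + 1) X Y' := fun a b ho h4 h5 h6 =>
        have nd := (nd_of_cover hI.1 h4 h5 h6).anti h1
        fwl ho ((hY.insert f).subset h1) h3 (pi_of_nd nd.1) ((nm_of_cover hI.1 f).anti h1) nd
          (by omega) r
      rcases hs with hs | ⟨h4, h5, h6⟩
      · exact go a b ho bx by' (Or.inl hs.2)
      by_cases k : b ∈ f
      · exact go b a h6 h4 h5 (Or.inr fun j => h2 ((Sym2.mem_and_mem_iff hb0.1).1 ⟨j, k⟩))
      · exact go a b ho bx by' (Or.inr k)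
    refine ⟨⟨ht, (nm_of_cover hI.1 s(0, 0)).anti (Set.subset_insert _ _)⟩, fun f _ hf => ?_,
      quiet s(x, x) Y (Set.subset_insert _ _) (fun k => ?_) ht r⟩
    swap
    · have := hb0.1
      rcases Sym2.eq_iff.1 k with k | k <;> omega
    by_cases hq : Thr (insert f Y) X 2
    · exact quiet f _ subset_rfl (fun k => hf (k ▸ hb0.2.2.2.1)) hq _
    obtain ⟨g, P, g1, g2, hb, fT, gT, hI', ht'⟩ := inv_step hI hd ht hf hq
    have up : ∀ {c i w : ℕ}, Big X c i → g = s(c, w) → Big (insert g X) c (i + 1) := by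
      rintro c i w ⟨N, n1, n2⟩ e
      refine ⟨insert w N, ?_, fun z hz => ?_⟩
      · rw [Finset.card_insert_of_notMem fun k => g1 (e ▸ n2 w k)]; omega
      · rcases Finset.mem_insert.1 hz with rfl | hz
        exacts [Or.inl e.symm, Or.inr (n2 z hz)]
    have sX := Set.subset_insert g X
    have go : ∀ i j, Big (insert g X) x i → Big (insert g X) y j → 120 ≤ i + j + n →
        Gm (r + 1 + 1) X (insert f Y) := by
      intro i j hi hj hn
      refine (ih _ _ (hY.insert f) ?_ hI' ht' (ho.mono sX) ?_ i j hi hj hn).step (inT_nd hb gT) g2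
      · rintro e he (rfl | k)
        · exact g2 he
        · rcases he with rfl | he
          exacts [hf k, hd e he k]
      · refine hs.imp (fun k => ⟨k.1, ?_⟩) fun k => ⟨k.1, k.2.1, k.2.2.mono sX⟩
        rintro w (e | e)
        · have bP := inT_page hb fT (e ▸ Sym2.mem_mk_left _ _) bx by'
          have : s(a, b) ∈ insert g (insert f Y) := by
            rcases k.1 with rfl | rfl
            exacts [(hb.2.2.2.2 b bP).1, (hb.2.2.2.2 b bP).2]
          rcases this with e | e | e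
          exacts [g1 (e ▸ hb0.2.2.2.1), hf (e ▸ hb0.2.2.2.1), hd _ e hb0.2.2.2.1]
        · exact k.2 w e
    rcases gT with e | ⟨w, -, e | e⟩
    exacts [go _ _ (up hi e) (hj.mono sX le_rfl) (by omega),
      go _ _ (up hi e) (hj.mono sX le_rfl) (by omega),
      go _ _ (hi.mono sX le_rfl) (up hj e) (by omega)]

theorem tl4' {x y a b : ℕ} {X Y : Set E} (bx : b ≠ x) (by' : b ≠ y) (hY : Y.Finite)
    (hd : ∀ e ∈ Y, e ∉ X) (hI : Inv x y Y X) (ht : Thr Y X 2) (ho : Opt X a b)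
    (hs : ((a = x ∨ a = y) ∧ ∀ w, s(b, w) ∉ Y) ∨ (a ≠ x ∧ a ≠ y ∧ Opt X b a)) (r : ℕ) :
    YN (r + 1) X Y :=
  tl4 bx by' r 120 X Y hY hd hI ht ho hs 0 0 ⟨∅, le_rfl, by simp⟩ ⟨∅, le_rfl, by simp⟩ le_rfl

theorem flexB {X Y : Set E} {a b : ℕ} (h1 : Opt X a b) (h2 : Opt X b a) (hY : Y.Finite)
    (hd : ∀ e ∈ Y, e ∉ X) (ht : Thr Y X 2) (hc : Y.ncard ≤ 10) (r : ℕ) : Gm (r + 1) X Y := by
  obtain ⟨P, -, hb⟩ := h1.1
  have go : ∀ a b, Opt X a b → (¬ ∃ c, Mach Y b c) → Gm (r + 1) X Y := fun a b ho k =>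
    fwl ho hY ht (fun F f1 _ c m => k ⟨c, by
      rwa [Finset.card_eq_zero.1 (by omega : F.card = 0), Finset.coe_empty, Set.union_empty] at m⟩)
      (nm_of_card hY (by omega)) (nd_of_card hY (by omega) b) (by omega) r
  by_cases k : ∃ c, Mach Y b c
  · refine go b a h2 fun ⟨d, j⟩ => ?_
    obtain ⟨c, k⟩ := k
    have := two_hubs hY hb.1 (fun e => hd _ e hb.2.2.2.1) j k
    omega
  · exact go a b h1 k

theorem flexC {X Y : Set E} {a b : ℕ} (h1 : Opt X a b) (h2 : Opt X b a) (hY : Y.Finite)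
    (hd : ∀ e ∈ Y, e ∉ X) (hc : Y.ncard ≤ 8) (r : ℕ) : Gm (r + 2) X Y := by
  by_cases ht : Thr Y X 2
  · exact flexB h1 h2 hY hd ht (by omega) _
  obtain ⟨g, hg, x, y, P, hP, hb⟩ : ∃ g ∉ X, HasH (insert g Y) := by
    by_contra k
    exact ht (thr2_iff.2 ⟨(thr_of_card (X := X) hY (t := 1) (by omega)).noH le_rfl,
      fun g hg j => k ⟨g, hg, j⟩⟩)
  have hT := inT_of_card hY hc hP hb
  obtain ⟨f, hf⟩ : Y.Nonempty := by
    by_contra k
    rw [Set.not_nonempty_iff_eq_empty] at k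
    exact ht (thr_of_card hY (by simp [k]))
  have c7 := Set.ncard_sdiff_singleton_add_one hf hY
  obtain ⟨P0, -, hb0⟩ := h1.1
  have nab : s(a, b) ∉ insert g Y := by
    rintro (k | k)
    exacts [hg (k ▸ hb0.2.2.2.1), hd _ k hb0.2.2.2.1]
  have fin : ∀ a b, b ≠ x → b ≠ y → Opt X a b → (((a = x ∨ a = y) ∧ ∀ w, s(b, w) ∉ Y \ {f}) ∨
      (a ≠ x ∧ a ≠ y ∧ Opt X b a)) → Gm (r + 2) X Y := fun a b k1 k2 k3 k4 =>
    ((tl4' k1 k2 hY.sdiff (fun e he => hd e he.1) (inv_of_inT hP hb fun e he => hT e he.1)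
      (thr_of_card hY.sdiff (by omega)) k3 k4 r).2.1 f (inT_nd hb (hT f hf)) (hd f hf)).mono
      subset_rfl (Set.subset_insert_sdiff_singleton f Y)
  have hub : ∀ a b, s(a, b) ∉ insert g Y → a ≠ b → Opt X a b → (a = x ∨ a = y) →
      Gm (r + 2) X Y := by
    intro a b nab ab ho ha
    have bx : b ≠ x := by
      rintro rfl
      rcases ha with rfl | rfl
      exacts [ab rfl, nab (sw hb.2.2.2.1)]
    have by' : b ≠ y := by
      rintro rfl
      rcases ha with rfl | rfl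
      exacts [nab hb.2.2.2.1, ab rfl]
    refine fin a b bx by' ho (Or.inl ⟨ha, fun w e => nab ?_⟩)
    have bP := inT_page hb (hT _ e.1) (Sym2.mem_mk_left _ _) bx by'
    rcases ha with rfl | rfl
    exacts [(hb.2.2.2.2 b bP).1, (hb.2.2.2.2 b bP).2]
  by_cases ha : a = x ∨ a = y
  · exact hub a b nab hb0.1 h1 ha
  by_cases hb' : b = x ∨ b = y
  · exact hub b a (fun k => nab (sw k)) hb0.1.symm h2 hb'
  · exact fin a b (fun k => hb' (Or.inl k)) (fun k => hb' (Or.inr k)) h1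
      (Or.inr ⟨fun k => ha (Or.inl k), fun k => ha (Or.inr k), h2⟩)

end Pool.Agent.Lib.MP_715591_co.Fam
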