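import Pool.Agent.Lib.MP_715591_co.Fam.Game

/-!
Counting lemmas, edge sets covered by two vertices, and the forced win of the owner of a three
page book with a second two page book at one hub.
-/

namespace Pool.Agent.Lib.MP_715591_co.Fam

open Classical

theorem sw {x y : ℕ} {S : Set E} (e : s(x, y) ∈ S) : s(y, x) ∈ S := Sym2.eq_swap ▸ e

theorem deg_le {S : Set E} {F : Finset E} {x y c : ℕ} {N : Finset ℕ}
    (h : ∀ e ∈ S, x ∈ e ∨ y ∈ e ∨ e ∈ F) (hx : c ≠ x) (hy : c ≠ y) (hN : ∀ w ∈ N, s(c, w) ∈ S) :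
    N.card ≤ F.card + 2 := by
  have : ((N.erase x).erase y).card ≤ F.card := by
    refine Finset.card_le_card_of_injOn (fun w => s(c, w)) (fun w hw => ?_)
      fun a _ b _ hab => Sym2.congr_right.1 hab
    have h1 := Finset.mem_erase.1 hw
    have h2 := Finset.mem_erase.1 h1.2
    rcases h _ (hN w h2.2) with k | k | k
    · rcases Sym2.mem_iff.1 k with k | k
      exacts [absurd k.symm hx, absurd k.symm h2.1]
    · rcases Sym2.mem_iff.1 k with k | k
      exacts [absurd k.symm hy, absurd k.symm h1.1]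
    · exact k
  have := Finset.pred_card_le_card_erase (s := N) (a := x)
  have := Finset.pred_card_le_card_erase (s := N.erase x) (a := y)
  omega

theorem cover2 {S : Set E} {x y : ℕ} {f g : E} (h : ∀ e ∈ S, x ∈ e ∨ y ∈ e ∨ e = f ∨ e = g) :
    ∀ e ∈ S, x ∈ e ∨ y ∈ e ∨ e ∈ ({f, g} : Finset E) := by simpa using h

theorem off_two {S : Set E} {x y p q : ℕ} {f g : E}
    (h : ∀ e ∈ S, x ∈ e ∨ y ∈ e ∨ e = f ∨ e = g) (he : s(p, q) ∈ S) (h1 : p ≠ x) (h2 : q ≠ x)
    (h3 : p ≠ y) (h4 : q ≠ y) : s(p, q) = f ∨ s(p, q) = g := by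
  rcases h _ he with k | k | k
  · rcases Sym2.mem_iff.1 k with k | k
    exacts [absurd k.symm h1, absurd k.symm h2]
  · rcases Sym2.mem_iff.1 k with k | k
    exacts [absurd k.symm h3, absurd k.symm h4]
  · exact k

theorem three {α : Type} {a b c f g : α} (h1 : a = f ∨ a = g) (h2 : b = f ∨ b = g)
    (h3 : c = f ∨ c = g) (ab : a ≠ b) (ac : a ≠ c) (bc : b ≠ c) : False := by
  rcases h1 with rfl | rfl <;> rcases h2 with rfl | rfl <;> rcases h3 with rfl | rfl <;> simp_all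

theorem noM_aux {S : Set E} {y a b u v l c : ℕ} {L : Finset ℕ} {f g : E}
    (h : ∀ e ∈ S, c ∈ e ∨ y ∈ e ∨ e = f ∨ e = g) (m : MAt S a b u v l c L) : False := by
  obtain ⟨-, ab, au, av, al, ac, bu, bv, bl, bc, uv, ul, uc, vl, vc, lc, -, e1, e2, e3, e4, e5, e6,
    -, -⟩ := m
  by_cases ha : a = y
  · subst ha
    exact three (off_two h e3 bc uc ab.symm au.symm) (off_two h e5 bc vc ab.symm av.symm)
      (off_two h e6 uc lc au.symm al.symm) (by simp; omega) (by simp; omega) (by simp; omega)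
  by_cases hb : b = y
  · subst hb
    exact three (off_two h e2 ac uc ab bu.symm) (off_two h e4 ac vc ab bv.symm)
      (off_two h e6 uc lc bu.symm bl.symm) (by simp; omega) (by simp; omega) (by simp; omega)
  by_cases hu : u = y
  · subst hu
    exact three (off_two h e1 ac bc au bu) (off_two h e4 ac vc au uv.symm)
      (off_two h e5 bc vc bu uv.symm) (by simp; omega) (by simp; omega) (by simp; omega)
  · exact three (off_two h e1 ac bc ha hb) (off_two h e2 ac uc ha hu)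
      (off_two h e3 bc uc hb hu) (by simp; omega) (by simp; omega) (by simp; omega)

theorem noM_of_cover {S : Set E} {x y : ℕ} {f g : E}
    (h : ∀ e ∈ S, x ∈ e ∨ y ∈ e ∨ e = f ∨ e = g) : ¬ HasM S := by
  rintro ⟨a, b, u, v, l, c, L, m⟩
  by_cases hx : c = x
  · exact noM_aux (hx ▸ h) m
  by_cases hy : c = y
  · exact noM_aux (y := x) (f := f) (g := g) (fun e he => hy ▸ (h e he).elim (fun k => Or.inr (Or.inl k))
      fun k => k.imp_right Or.inr) m
  have := deg_le (cover2 h) hx hy m.leaf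
  have := Finset.card_le_two (a := f) (b := g)
  have := m.card
  omega

theorem book_nbrs {S : Set E} {p q : ℕ} {P : Finset ℕ} (h : Book S p q P) :
    (insert q P).card = P.card + 1 ∧ ∀ w ∈ insert q P, s(p, w) ∈ S :=
  ⟨Finset.card_insert_of_notMem h.2.2.1, fun w hw => by
    rcases Finset.mem_insert.1 hw with rfl | hw
    exacts [h.2.2.2.1, (h.2.2.2.2 w hw).1]⟩

theorem book_of_cover {S : Set E} {x y : ℕ} {f g : E}
    (h : ∀ e ∈ S, x ∈ e ∨ y ∈ e ∨ e = f ∨ e = g) (hH : HasH S) :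
    ∃ P : Finset ℕ, P.card = 4 ∧ Book S x y P := by
  obtain ⟨p, q, P, hc, hb⟩ := hH
  have k : ∀ {p q : ℕ}, Book S p q P → p = x ∨ p = y := by
    intro p q hb
    by_contra hn
    have := deg_le (cover2 h) (fun a => hn (Or.inl a)) (fun a => hn (Or.inr a)) (book_nbrs hb).2
    have := Finset.card_le_two (a := f) (b := g)
    have := (book_nbrs hb).1
    omega
  rcases k hb with rfl | rfl <;> rcases k hb.symm with rfl | rfl
  exacts [absurd rfl hb.1, ⟨P, hc, hb⟩, ⟨P, hc, hb.symm⟩, absurd rfl hb.1]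

theorem star_count {Y : Set E} (hY : Y.Finite) {a : ℕ} {N : Finset ℕ} (hN : ∀ w ∈ N, s(a, w) ∈ Y) :
    N.card + (Y \ {e | a ∈ e}).ncard ≤ Y.ncard := by
  have h1 : ((N.image fun w => s(a, w) : Finset E) : Set E).ncard = N.card := by
    rw [Set.ncard_coe_finset, Finset.card_image_of_injective _ fun x y h => Sym2.congr_right.1 h]
  rw [← h1, ← Set.ncard_union_eq _ (Finset.finite_toSet _) hY.sdiff]
  · refine Set.ncard_le_ncard (Set.union_subset (fun e he => ?_) Set.sdiff_subset) hY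
    obtain ⟨w, hw, rfl⟩ := Finset.mem_image.1 he
    exact hN w hw
  · refine Set.disjoint_left.2 fun e he h => h.2 ?_
    obtain ⟨w, hw, rfl⟩ := Finset.mem_image.1 he
    exact Sym2.mem_mk_left _ _

theorem book_count {Y : Set E} (hY : Y.Finite) {p q : ℕ} {P : Finset ℕ} (h : Book Y p q P) :
    2 * P.card + 1 ≤ Y.ncard := by
  have h1 := star_count hY (book_nbrs h).2
  have h2 := star_count (Y := Y \ {e | p ∈ e}) hY.sdiff (a := q) (N := P) fun w hw =>
    ⟨(h.2.2.2.2 w hw).2, fun k => by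
      rcases Sym2.mem_iff.1 k with k | k
      exacts [h.1 k, h.2.1 (k ▸ hw)]⟩
  have := (book_nbrs h).1
  omega

theorem thr_of_card {X Y : Set E} (hY : Y.Finite) {t : ℕ} (h : Y.ncard + t ≤ 9) : Thr Y X t := by
  rintro F h1 - ⟨p, q, P, hc, hb⟩
  have := book_count (hY.union F.finite_toSet) hb
  have := Set.ncard_union_le Y F
  rw [Set.ncard_coe_finset] at this
  omega

theorem nm_of_card {Y : Set E} (hY : Y.Finite) (h : Y.ncard ≤ 48) : NM Y := by
  rintro g ⟨a, b, u, v, l, c, L, m⟩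
  have := star_count (hY.insert g) m.leaf
  have := Set.ncard_insert_le g Y
  have := m.card
  omega

theorem inT_of_card {Y : Set E} (hY : Y.Finite) (h : Y.ncard ≤ 8) {g : E} {p q : ℕ} {P : Finset ℕ}
    (hc : P.card = 4) (hb : Book (insert g Y) p q P) : ∀ e ∈ Y, InT p q P e := by
  intro e he
  by_contra hn
  have h1 : Book (insert g (Y \ {e})) p q P := hb.of_inT fun z hz k =>
    k.imp_right fun k => ⟨k, fun a => hn (by rw [← Set.mem_singleton_iff.1 a]; exact hz)⟩
  have := book_count (hY.sdiff.insert g) h1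
  have := Set.ncard_insert_le g (Y \ {e})
  have := Set.ncard_sdiff_singleton_add_one he hY
  omega

theorem two_hubs {Y : Set E} (hY : Y.Finite) {a b c d : ℕ} (hab : a ≠ b) (h : s(a, b) ∉ Y)
    (h1 : Mach Y a c) (h2 : Mach Y b d) : 11 ≤ Y.ncard := by
  obtain ⟨P, hP, h1⟩ := h1
  obtain ⟨Q, hQ, h2⟩ := h2
  have n1 := book_nbrs h1
  have n2 := book_nbrs h2
  have k1 := star_count hY n1.2
  have k2 := star_count (Y := Y \ {e | a ∈ e}) hY.sdiff (a := b) (N := insert d Q) fun w hw =>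
    ⟨n2.2 w hw, fun k => by
      rcases Sym2.mem_iff.1 k with k | k
      exacts [hab k, h (by rw [Sym2.eq_swap, k]; exact n2.2 w hw)]⟩
  have k3 := star_count (Y := (Y \ {e | a ∈ e}) \ {e | b ∈ e}) hY.sdiff.sdiff (a := c) (N := P)
    fun w hw => ⟨⟨(h1.2.2.2.2 w hw).2, fun k => by
      rcases Sym2.mem_iff.1 k with k | k
      exacts [h1.1 k, h1.2.1 (k ▸ hw)]⟩, fun k => by
      rcases Sym2.mem_iff.1 k with k | k
      exacts [h (k ▸ h1.2.2.2.1), h (k ▸ (h1.2.2.2.2 w hw).1)]⟩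
  omega

/-- `c` has `n` neighbours -/
def Big (Y : Set E) (c n : ℕ) : Prop := ∃ N : Finset ℕ, n ≤ N.card ∧ ∀ w ∈ N, s(c, w) ∈ Y

theorem Big.mono {Y Y' : Set E} {c n m : ℕ} (h : Big Y c n) (hY : Y ⊆ Y') (hm : m ≤ n) :
    Big Y' c m := let ⟨N, h1, h2⟩ := h; ⟨N, hm.trans h1, fun w hw => hY (h2 w hw)⟩

theorem Big.del {Y : Set E} {c n : ℕ} {e : E} (h : Big (insert e Y) c (n + 1)) : Big Y c n := by
  obtain ⟨N, h1, h2⟩ := h
  by_cases he : ∃ z, e = s(c, z)
  · obtain ⟨z, rfl⟩ := he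
    refine ⟨N.erase z, by have := Finset.pred_card_le_card_erase (s := N) (a := z); omega,
      fun w hw => ?_⟩
    have := Finset.mem_erase.1 hw
    exact (h2 w this.2).resolve_left fun a => this.1 (Sym2.congr_right.1 a)
  · exact ⟨N, by omega, fun w hw => (h2 w hw).resolve_left fun a => he ⟨w, a.symm⟩⟩

/-- `h` has small degree and lies on no triangle that avoids a vertex of large degree -/
def ND (Y : Set E) (h d : ℕ) : Prop := ¬ Big Y h d ∧ ∀ c s t, c ≠ h → Big Y c 45 → s ≠ c → t ≠ c →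
  s ≠ t → s ≠ h → t ≠ h → s(h, s) ∈ Y → s(h, t) ∈ Y → s(s, t) ∉ Y

theorem ND.anti {Y Y' : Set E} {h d : ℕ} (k : ND Y h d) (hY : Y' ⊆ Y) : ND Y' h d :=
  ⟨fun a => k.1 (a.mono hY le_rfl), fun c s t a b h1 h2 h3 h4 h5 e1 e2 e3 =>
    k.2 c s t a (b.mono hY le_rfl) h1 h2 h3 h4 h5 (hY e1) (hY e2) (hY e3)⟩

theorem nd_of_card {Y : Set E} (hY : Y.Finite) (h : Y.ncard ≤ 38) (v : ℕ) : ND Y v 39 := by
  have : ∀ c, ¬ Big Y c 39 := fun c ⟨N, h1, h2⟩ => by have := star_count hY h2; omega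
  exact ⟨this v, fun c _ _ _ b => absurd (b.mono subset_rfl (by omega)) (this c)⟩

theorem off_ins {Y : Set E} {h w a b : ℕ} (ha : a ≠ w) (hb : b ≠ w)
    (k : s(a, b) ∈ insert s(h, w) Y) : s(a, b) ∈ Y := by
  rcases k with k | k
  · rcases Sym2.eq_iff.1 k with k | k
    exacts [absurd k.2 hb, absurd k.1 ha]
  · exact k

theorem ND.pend {Y : Set E} {h d w : ℕ} (k : ND Y h d) (hw : ∀ a, s(w, a) ∉ Y) (hh : h ≠ w) :
    ND (insert s(h, w) Y) h (d + 1) := by
  have one : ∀ {x : ℕ} (a : ℕ), x = w → s(x, a) ∈ insert s(h, w) Y → a = h := by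
    rintro _ a rfl (e | e)
    · rcases Sym2.eq_iff.1 e with e | e
      exacts [absurd e.1.symm hh, e.2]
    · exact absurd e (hw a)
  refine ⟨fun a => k.1 a.del, fun c s t hc ⟨N, n1, n2⟩ h1 h2 h3 h4 h5 e1 e2 e3 => ?_⟩
  have hs : s ≠ w := fun a => h5 (one t a e3)
  have ht : t ≠ w := fun a => h4 (one s a (sw e3))
  have hcw : c ≠ w := by
    intro e
    have : N.card ≤ 1 := Finset.card_le_one.2 fun a ha b hb =>
      (one a e (n2 a ha)).trans (one b e (n2 b hb)).symm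
    omega
  refine k.2 c s t hc ⟨N, n1, fun z hz => off_ins hcw (fun a => hc ?_) (n2 z hz)⟩ h1 h2 h3 h4 h5
    (off_ins hh hs e1) (off_ins hh ht e2) (off_ins hs ht e3)
  exact one c a (sw (n2 z hz))

theorem NM.pend {Y : Set E} {h d w : ℕ} (k : NM Y) (n : ND Y h d) (hd : d ≤ 48)
    (hw : ∀ a, s(w, a) ∉ Y) (hh : h ≠ w) : NM (insert s(h, w) Y) := by
  rintro g ⟨a, b, u, v, l, c, L, m⟩
  have cls : ∀ {x : ℕ} (z : ℕ), x = w → s(x, z) ∈ insert g (insert s(h, w) Y) →
      z = h ∨ g = s(w, z) := by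
    rintro _ z rfl (e | e | e)
    · exact Or.inr e.symm
    · rcases Sym2.eq_iff.1 e with e | e
      exacts [absurd e.1.symm hh, Or.inl e.2]
    · exact absurd e (hw z)
  have tri : ∀ {q x y z : ℕ}, q = w → s(q, x) ∈ insert g (insert s(h, w) Y) →
      s(q, y) ∈ insert g (insert s(h, w) Y) → s(q, z) ∈ insert g (insert s(h, w) Y) →
      x ≠ y → x ≠ z → y ≠ z → False := by
    intro q x y z e h1 h2 h3 n1 n2 n3
    rcases cls x e h1 with a1 | a1 <;> rcases cls y e h2 with a2 | a2 <;>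
      rcases cls z e h3 with a3 | a3
    all_goals first
      | omega
      | exact n1 (Sym2.congr_right.1 (a1.symm.trans a2))
      | exact n2 (Sym2.congr_right.1 (a1.symm.trans a3))
      | exact n3 (Sym2.congr_right.1 (a2.symm.trans a3))
  have big : Big Y c 48 := Big.del (Big.del ⟨L, m.card.ge, m.leaf⟩)
  have hc : c ≠ h := fun e => n.1 ((e ▸ big).mono subset_rfl hd)
  have aw : a ≠ w := fun e => tri e m.eab m.eau m.eav m.bu m.bv m.uv
  have bw : b ≠ w := fun e => tri e (sw m.eab) m.ebu m.ebv m.au m.av m.uv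
  have uw : u ≠ w := fun e => tri e (sw m.eau) (sw m.ebu) m.eul m.ab m.al m.bl
  have cw : c ≠ w := by
    obtain ⟨N, n1, n2⟩ := big
    obtain ⟨z, hz⟩ := Finset.card_pos.1 (by omega : 0 < N.card)
    exact fun e => hw z (e ▸ n2 z hz)
  have inY : ∀ z, g = s(w, z) → ∀ {x y : ℕ}, x ≠ w → y ≠ w →
      s(x, y) ∈ insert g (insert s(h, w) Y) → s(x, y) ∈ Y := by
    rintro z rfl x y hx hy (e | e)
    · rcases Sym2.eq_iff.1 e with e | e
      exacts [absurd e.1 hx, absurd e.2 hy]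
    · exact off_ins hx hy e
  have b45 := big.mono subset_rfl (by omega : 45 ≤ 48)
  by_cases vw : v = w
  · rcases cls a vw (sw m.eav) with e1 | e1 <;> rcases cls b vw (sw m.ebv) with e2 | e2
    · exact m.ab (e1.trans e2.symm)
    · subst e1
      exact n.2 c b u hc b45 m.bc m.uc m.bu m.ab.symm m.au.symm (inY _ e2 aw bw m.eab)
        (inY _ e2 aw uw m.eau) (inY _ e2 bw uw m.ebu)
    · subst e2
      exact n.2 c a u hc b45 m.ac m.uc m.au m.ab m.bu.symm (inY _ e1 bw aw (sw m.eab))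
        (inY _ e1 bw uw m.ebu) (inY _ e1 aw uw m.eau)
    · exact m.ab (Sym2.congr_right.1 (e1.symm.trans e2))
  by_cases lw : l = w
  · have e2 := (cls c lw (sw m.ecl)).resolve_left hc
    rcases cls u lw (sw m.eul) with e1 | e1
    · subst e1
      exact n.2 c a b hc b45 m.ac m.bc m.ab m.au m.bu (inY _ e2 uw aw (sw m.eau))
        (inY _ e2 uw bw (sw m.ebu)) (inY _ e2 aw bw m.eab)
    · exact m.uc (Sym2.congr_right.1 (e1.symm.trans e2))
  have o : ∀ {x y : ℕ}, x ≠ w → y ≠ w → s(x, y) ∈ insert g (insert s(h, w) Y) →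
      s(x, y) ∈ insert g Y := fun hx hy e => e.imp_right (off_ins hx hy)
  refine k g ⟨a, b, u, v, l, c, L, { m with
    eab := o aw bw m.eab, eau := o aw uw m.eau, ebu := o bw uw m.ebu, eav := o aw vw m.eav,
    ebv := o bw vw m.ebv, eul := o uw lw m.eul, ecl := o cw lw m.ecl, leaf := fun z hz => ?_ }⟩
  by_cases e : z = w
  · exact Or.inl (by rw [(cls c e (sw (m.leaf z hz))).resolve_left hc, e, Sym2.eq_swap])
  · exact o cw e (m.leaf z hz)

theorem book_add {X : Set E} {p q w : ℕ} {P : Finset ℕ} (hb : Book X p q P) (hp : p ≠ w)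
    (hq : q ≠ w) (h1 : s(p, w) ∈ X) (h2 : s(q, w) ∈ X) : Book X p q (insert w P) :=
  ⟨hb.1, by rw [Finset.mem_insert]; rintro (h | h); exacts [hp h, hb.2.1 h],
    by rw [Finset.mem_insert]; rintro (h | h); exacts [hq h, hb.2.2.1 h], hb.2.2.2.1,
    fun x hx => by
      rcases Finset.mem_insert.1 hx with rfl | hx
      exacts [⟨h1, h2⟩, hb.2.2.2.2 x hx]⟩

theorem exists_big {Y : Set E} (hY : Y.Finite) (P : Finset ℕ) :
    ∃ n, (∀ a b, s(a, b) ∈ Y → a < n) ∧ ∀ a ∈ P, a < n := by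
  obtain ⟨n, hn⟩ := exists_bound hY
  obtain ⟨k, hk⟩ := P.bddAbove
  exact ⟨n + k + 1, fun a b h => by have := hn a b h; omega, fun a h => by have := hk h; omega⟩

/-- a three page book with hubs `a b` and a two page book with hubs `a p` -/
def Opt (X : Set E) (a b : ℕ) : Prop :=
  Mach X a b ∧ ∃ (p : ℕ) (Q : Finset ℕ), p ≠ b ∧ Q.card = 2 ∧ Book X a p Q

theorem Opt.mono {X X' : Set E} {a b : ℕ} (h : Opt X a b) (hX : X ⊆ X') : Opt X' a b :=
  let ⟨h1, p, Q, h2, h3, h4⟩ := h; ⟨h1.mono hX, p, Q, h2, h3, h4.mono hX⟩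

theorem pump_win {X : Set E} {a b w : ℕ} {P : Finset ℕ} (hc : P.card = 3) (hb : Book X a b P)
    (ha : a ≠ w) (hb' : b ≠ w) (hP : w ∉ P) : Win (insert s(b, w) (insert s(a, w) X)) :=
  Or.inl ⟨a, b, insert w P, by rw [Finset.card_insert_of_notMem hP, hc],
    book_add (hb.mono ((Set.subset_insert _ _).trans (Set.subset_insert _ _))) ha hb'
      (Or.inr (Or.inl rfl)) (Or.inl rfl)⟩

/-- the forced win: three threats at new vertices, then a double threat -/
theorem fwl {X Y : Set E} {a b d : ℕ} (ho : Opt X a b) (hY : Y.Finite) (ht : Thr Y X 2)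
    (hp : Pi Y X b 1) (hm : NM Y) (hn : ND Y b d) (hd : d ≤ 45) (r : ℕ) : Gm (r + 1) X Y := by
  obtain ⟨⟨P, hc, hb⟩, p, Q, hpb, hQ, hq⟩ := ho
  obtain ⟨n, hn1, hn2⟩ := exists_big hY (insert a (insert b (insert p (P ∪ Q))))
  have an := hn2 a (by simp)
  have bn := hn2 b (by simp)
  have pn := hn2 p (by simp)
  have Pn : ∀ w ∈ P, w < n := fun w hw => hn2 w (by simp [hw])
  have Qn : ∀ w ∈ Q, w < n := fun w hw => hn2 w (by simp [hw])
  have pump : ∀ (X Y : Set E) (w d : ℕ), n ≤ w → (∀ a b, s(a, b) ∈ Y → a < w) → Book X a b P →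
      Thr Y X 2 → Pi Y X b 1 → NM Y → ND Y b d → d ≤ 48 →
      ((∀ x y, s(x, y) ∈ insert s(b, w) Y → x < w + 1) → Book (insert s(a, w) X) a b P →
        Thr (insert s(b, w) Y) (insert s(a, w) X) 2 → Pi (insert s(b, w) Y) (insert s(a, w) X) b 1 →
        NM (insert s(b, w) Y) → ND (insert s(b, w) Y) b (d + 1) →
        Gm (r + 1) (insert s(a, w) X) (insert s(b, w) Y)) → Gm (r + 1) X Y := by
    intro X Y w d hw hY hb ht hp hm hn hd k
    have fr : ∀ z, s(w, z) ∉ Y := fun z h => lt_irrefl _ (hY _ _ h)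
    have bw : b ≠ w := by omega
    refine Gm.thr (e := s(a, w)) (g := s(b, w)) (by simp; omega) (fun h => fr _ (sw h))
      ⟨ht, hm⟩ (by simpa using bw) (fun h => fr _ (sw h))
      (pump_win hc hb (by omega) bw fun h => by have := Pn w h; omega)
      (k ?_ (hb.mono (Set.subset_insert _ _)) ((ht.pend fr hp).mono le_rfl (Set.subset_insert _ _))
        ((hp.pend fr bw).mono le_rfl (Set.subset_insert _ _)) (hm.pend hn hd fr bw) (hn.pend fr bw))
    rintro x y (h | h)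
    · rcases Sym2.eq_iff.1 h with h | h <;> omega
    · have := hY _ _ h; omega
  refine pump X Y n d le_rfl hn1 hb ht hp hm hn (by omega) fun h1 h2 h3 h4 h5 h6 =>
    pump _ _ (n + 1) _ (by omega) h1 h2 h3 h4 h5 h6 (by omega) fun h1 h2 h3 h4 h5 h6 =>
    pump _ _ (n + 1 + 1) _ (by omega) h1 h2 h3 h4 h5 h6 (by omega) fun _ _ h3 _ h5 _ => ?_
  have fr : ∀ w, n ≤ w → s(p, w) ∉ insert s(b, n + 1 + 1) (insert s(b, n + 1) (insert s(b, n) Y)) := by
    rintro w hw (h | h | h | h)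
    · rcases Sym2.eq_iff.1 h with h | h <;> omega
    · rcases Sym2.eq_iff.1 h with h | h <;> omega
    · rcases Sym2.eq_iff.1 h with h | h <;> omega
    · have := hn1 _ _ (sw h); omega
  have win : ∀ w, n < w → s(a, w) ∈ insert s(a, n + 1 + 1) (insert s(a, n + 1) (insert s(a, n) X)) →
      Win (insert s(p, w) (insert s(p, n)
        (insert s(a, n + 1 + 1) (insert s(a, n + 1) (insert s(a, n) X))))) := by
    intro w hw h
    have q1 : n ∉ Q := fun h => lt_irrefl _ (Qn _ h)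
    have q2 : w ∉ insert n Q := by
      rw [Finset.mem_insert]; rintro (h | h)
      · omega
      · have := Qn _ h; omega
    refine Or.inl ⟨a, p, insert w (insert n Q),
      by rw [Finset.card_insert_of_notMem q2, Finset.card_insert_of_notMem q1, hQ], ?_⟩
    exact book_add (book_add (hq.mono fun e he => by simp [he]) (by omega) (by omega) (by simp)
      (by simp)) (by omega) (by omega) (Or.inr (Or.inr h)) (Or.inl rfl)
  refine Gm.thr (e := s(p, n)) (g := s(p, n + 1)) (by simp; omega) (fr n le_rfl) ⟨h3, h5⟩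
    (by simp; omega) (fr _ (by omega)) (win _ (by omega) (by simp))
    (Gm.now _ _ _ s(p, n + 1 + 1) (by simp; omega) ?_ (win _ (by omega) (by simp)))
  rintro (h | h)
  · have := Sym2.congr_right.1 h; omega
  · exact fr _ (by omega) h

theorem T1.step {X Y : Set E} (h : T1 X Y) : ∃ e : E, ¬ e.IsDiag ∧ e ∉ Y ∧ YN 0 (insert e X) Y := by
  obtain ⟨hY, x, y, z, e, ⟨P, hc, hb⟩, ht, hp, hcov⟩ := h
  obtain ⟨n, hn1, hn2⟩ := exists_big hY (insert x (insert y P))
  have xn := hn2 x (by simp)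
  have yn := hn2 y (by simp)
  have fr : ∀ a, s(n, a) ∉ Y := fun a h => lt_irrefl _ (hn1 _ _ h)
  have win := pump_win hc hb (w := n) (by omega) (by omega)
    fun h => lt_irrefl _ (hn2 n (by simp [h]))
  have g1 : ¬ (s(y, n) : E).IsDiag := by simp; omega
  have g2 : s(y, n) ∉ Y := fun h => fr _ (sw h)
  refine ⟨s(x, n), by simp; omega, fun h => fr _ (sw h),
    ⟨ht.mono le_rfl (Set.subset_insert _ _), fun g => noM_of_cover (x := y) (y := z) (f := e) (g := g) ?_⟩,
    fun f _ _ => ?_, Gm.now _ _ _ _ g1 g2 win⟩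
  · rintro f (rfl | hf)
    · simp
    · exact (hcov f hf).imp_right (Or.imp_right Or.inl)
  by_cases hf : s(y, n) = f
  · subst hf
    refine Gm.pump _ _ ⟨hY.insert _, x, y, z, e, ⟨P, hc, hb.mono (Set.subset_insert _ _)⟩,
      (ht.pend fr hp).mono le_rfl (Set.subset_insert _ _),
      (hp.pend fr (by omega)).mono le_rfl (Set.subset_insert _ _), ?_⟩
    rintro f (rfl | hf)
    exacts [Or.inl (Sym2.mem_mk_left _ _), hcov f hf]
  · exact Gm.now _ _ _ _ g1 (by rintro (a | a); exacts [hf a, g2 a]) win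

theorem Gm.unfold {r : ℕ} {X Y : Set E} (h : Gm r X Y) : ∃ e : E, ¬ e.IsDiag ∧ e ∉ Y ∧
    (Win (insert e X) ∨ ∃ s, r = s + 1 ∧ YN s (insert e X) Y) := by
  cases h with
  | now _ _ _ e h1 h2 h3 => exact ⟨e, h1, h2, Or.inl h3⟩
  | pump _ _ h => exact let ⟨e, h1, h2, h3⟩ := h.step; ⟨e, h1, h2, Or.inr ⟨0, rfl, h3⟩⟩
  | step r _ _ e h1 h2 h3 h4 h5 => exact ⟨e, h1, h2, Or.inr ⟨r, rfl, h3, h4, h5⟩⟩

end Pool.Agent.Lib.MP_715591_co.Fam
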