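import Pool.Agent.Lib.MP_715591_co.Sound
import Pool.Agent.Lib.MP_715591_co.Fam.Inv
import Pool.Agent.Lib.MP_715591_co.Fam.Chk

/-!
Soundness of the patterns.
-/

namespace Pool.Agent.Lib.MP_715591_co.Fam

open Classical

@[simp] theorem nt_eq (a : Bool) : nt a = true ↔ ¬ a = true := by cases a <;> simp [nt]

@[simp] theorem orr_eq (a b : Bool) : orr a b = true ↔ a = true ∨ b = true := by
  cases a <;> simp [orr]

theorem full_bit (i : ℕ) : full.testBit i = true ↔ i < 256 := by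
  rw [full, Nat.shiftLeft_eq', Nat.one_shiftLeft, Nat.sub_eq, Nat.testBit_two_pow_sub_one,
    decide_eq_true_eq]

theorem opt_real {φ : ℕ → ℕ} {m M a b p : ℕ} {X : Set E} (hφ : Set.InjOn φ (Set.Iio m))
    (hr : Rl φ m M (· ∈ X)) (h : optChk M a b p = true) : Opt X (φ a) (φ b) := by
  simp only [optChk, an_eq, nt_eq, Nat.beq_eq] at h
  obtain ⟨h1, h2, h3⟩ := h
  obtain ⟨Q, q1, q2⟩ := book_real hφ hr h2
  obtain ⟨a1, a2, -, a3, -⟩ := bookChk_sound h1
  obtain ⟨b1, b2, -, b3, -⟩ := bookChk_sound h2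
  exact ⟨book_real hφ hr h1, φ p, Q,
    fun k => h3 (hφ (hr _ b1 _ b2 b3).2.1 (hr _ a1 _ a2 a3).2.1 k), q1, q2⟩

/-- the conditions on the opponent under which a pattern works -/
def Cnd (t : ℕ) (cnt alt : Bool) (r : ℕ) (X Y : Set E) : Prop :=
  Y.ncard + t ≤ 38 ∧ ((Thr Y X t ∧ (cnt = true → Y.ncard + t ≤ 12)) ∨
    (alt = true ∧ Y.ncard + t ≤ 10 ∧ 2 ≤ r))

/-- meaning of a pattern -/
def PatW (P : ℕ) : Prop :=
  ∀ (X Y : Set E) (φ : ℕ → ℕ) (r : ℕ), Y.Finite → (∀ e ∈ Y, e ∉ X) →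
    Set.InjOn φ (Set.Iio (nib P 2)) → SE φ (dl 8 16 (qG P)) ⊆ X →
    (∀ e ∈ SE φ (dl 8 32 (qZ P)), e ∉ Y) → nib P 1 ≤ r →
    Cnd (nib P 0) (tb P 12) (tb P 13) r X Y →
    (∀ z ∈ dl 8 8 (qS P), Pi Y X (φ z.1) (nib P 0 - 1)) → Gm r X Y

theorem caseChk_sound {PT : Tr} {j t kb m G Z S code r : ℕ} {cnt alt : Bool}
    (hP : ∀ i < j, PatW (PT.get i)) {X Y : Set E} {φ : ℕ → ℕ}
    (hφ : Set.InjOn φ (Set.Iio (m + 1))) (hG : Rl φ (m + 1) G (· ∈ X))
    (h : caseChk PT j t kb cnt alt m G Z S code = true) :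
    sub (img (eMap code) 8 32 (qZ (PT.get (eId code)))) Z = true ∧
    (Y.Finite → (∀ e ∈ Y, e ∉ X) → kb ≤ r →
      (∀ t' < t, ∀ c' a' : Bool, (c' = true → cnt = true) → (alt = true → a' = true) →
        Cnd t' c' a' r X Y) →
      (∀ v, S.testBit v = true → ∀ t' < t, Pi Y X (φ v) (t' - 1)) →
      (∀ e ∈ SE (fun i => φ (nib (eMap code) i)) (dl 8 32 (qZ (PT.get (eId code)))), e ∉ Y) →
      Gm r X Y) := by
  simp only [caseChk, frc_eq, an_eq, orr_eq, nt_eq, Nat.beq_eq, Nat.blt_eq, Nat.ble_eq] at h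
  obtain ⟨h1, h2, h3, h4, h5, h6, h7, h8, h9, h10⟩ := h
  refine ⟨h9, fun hY hd hr hc hS hz => ?_⟩
  set P := PT.get (eId code)
  set ψ := eMap code
  have lt : ∀ i < nib P 2, nib ψ i < m + 1 := fun i hi => by
    rw [Nat.shiftLeft_eq', Nat.shiftLeft_eq, mul_comm, ← pow_succ] at h3
    exact bits_of_lt h3 ((tb_vals _ _ _).2 ⟨i, hi, rfl⟩)
  exact hP _ h1 _ _ (fun i => φ (nib ψ i)) r hY hd
    (fun a ha b hb u => inj_of_pc h2 ha hb (hφ (lt a ha) (lt b hb) u)) (SE_of_Rl hG h8) hz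
    (h5.trans hr) (hc _ h4 _ _ (fun k => h6.resolve_left fun a => a k)
      fun k => h7.resolve_left fun a => a k)
    fun z hz => hS _ (sub_spec h10 ((tb_marks _ _ _ _).2 ⟨z, hz, rfl⟩)) _ h4

theorem casesQ_sound {PT : Tr} {j t kb m G Z S r : ℕ} {cnt alt : Bool}
    (hP : ∀ i < j, PatW (PT.get i)) {X Y : Set E} {φ : ℕ → ℕ}
    (hφ : Set.InjOn φ (Set.Iio (m + 1))) (hG : Rl φ (m + 1) G (· ∈ X))
    (hZ : Rl φ (m + 1) Z (· ∉ Y)) {e : E} (he : e ∉ X) (hY : Y.Finite)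
    (hd : ∀ z ∈ insert e Y, z ∉ X) (hr : kb ≤ r)
    (hc : ∀ t' < t, ∀ c' a' : Bool, (c' = true → cnt = true) → (alt = true → a' = true) →
      Cnd t' c' a' r X (insert e Y))
    (hS : ∀ v, S.testBit v = true → ∀ t' < t, Pi (insert e Y) X (φ v) (t' - 1))
    (f code I : ℕ) (h : casesQ PT j t kb cnt alt m G Z S f code I = true) :
    Gm r X (insert e Y) ∨ ((∀ a < 16, ∀ b < 16, a ≤ m → b ≤ m → e = s(φ a, φ b) →
      ¬ I.testBit (16 * a + b) = true) ∧
      (0 < code → ∃ a < 16, ∃ b < 16, a ≤ m ∧ b ≤ m ∧ e = s(φ a, φ b))) := by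
  induction f generalizing code I with
  | zero => exact absurd h Bool.false_ne_true
  | succ f ih =>
    have e0 : casesQ PT j t kb cnt alt m G Z S (f + 1) code I = cnd (Nat.beq code 0) (sub I G)
      (an (caseChk PT j t kb cnt alt m G Z S code) (frc (Nat.shiftRight code 80) fun z =>
        frc (Nat.land I (img (eMap code) 8 32 (qZ (PT.get (eId code))))) fun W =>
          casesQ PT j t kb cnt alt m G Z S f z W)) := rfl
    rw [e0] at h
    simp only [cnd_eq, frc_eq, Nat.beq_eq] at h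
    split_ifs at h with c0
    · exact Or.inr ⟨fun a ha b hb _ _ e1 hI => he (e1 ▸ (hG a ha b hb (sub_spec h hI)).2.2),
        fun h => by omega⟩
    rw [an_eq] at h
    obtain ⟨h6, k⟩ := caseChk_sound (Y := insert e Y) (r := r) hP hφ hG h.1
    set P := PT.get (eId code)
    set ψ := eMap code
    by_cases hz : e ∈ SE (fun i => φ (nib ψ i)) (dl 8 32 (qZ P))
    · obtain ⟨z, hz, e1⟩ := hz
      have b1 := (tb_img ψ 8 32 (qZ P) _).2 ⟨z, hz, Or.inl rfl⟩
      have b2 := (tb_img ψ 8 32 (qZ P) _).2 ⟨z, hz, Or.inr rfl⟩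
      obtain ⟨l1, l2, -⟩ := hZ _ (nib_lt _ _) _ (nib_lt _ _) (sub_spec h6 b1)
      refine (ih _ _ h.2).imp_right fun k => ⟨fun a ha b hb am bm e2 hI =>
        k.1 a ha b hb am bm e2 ((tb_land _ _ _).2 ⟨hI, ?_⟩),
        fun _ => ⟨_, nib_lt _ _, _, nib_lt _ _, by omega, by omega, e1⟩⟩
      have am' : a ∈ Set.Iio (m + 1) := Nat.lt_succ_of_le am
      have bm' : b ∈ Set.Iio (m + 1) := Nat.lt_succ_of_le bm
      rcases Sym2.eq_iff.1 (e2.symm.trans e1) with ⟨u, v⟩ | ⟨u, v⟩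
      · rw [hφ am' l1 u, hφ bm' l2 v]; exact b1
      · rw [hφ am' l2 u, hφ bm' l1 v]; exact b2
    · refine Or.inl (k (hY.insert e) hd hr hc hS ?_)
      rintro g hg (rfl | a)
      exacts [hz hg, SE_of_Rl hZ h6 g hg a]

theorem Rl_id2 {φ : ℕ → ℕ} {m f code M : ℕ} {Q : E → Prop} (hQ : ∀ e ∈ SE φ (dl 8 f code), Q e)
    (hs : Sub (img idm 8 f code) M) (h0 : Nat.shiftRight M (Nat.mul 16 m) = 0) :
    Rl φ m (img idm 8 f code) Q := by
  have lt : ∀ a b, (img idm 8 f code).testBit (16 * a + b) = true → b < 16 → a < m := by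
    intro a b h hb
    by_contra hh
    have := hs _ h
    rw [show 16 * a + b = 16 * m + (16 * a + b - 16 * m) by omega, ← Nat.testBit_shiftRight,
      show M >>> (16 * m) = 0 from h0] at this
    simp at this
  intro a ha b hb h
  refine ⟨lt a b h hb, lt b a (Sy_img _ _ _ _ a ha b hb h) ha, hQ _ ?_⟩
  obtain ⟨z, hz, ⟨rfl, rfl⟩ | ⟨rfl, rfl⟩⟩ := img_cases ha hb h
  · exact ⟨z, hz, by rw [idm, nib_id (dl_lt hz).1, nib_id (dl_lt hz).2]⟩
  · exact ⟨z, hz, by rw [idm, nib_id (dl_lt hz).1, nib_id (dl_lt hz).2, Sym2.eq_swap]⟩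

theorem patQ_sound {PT : Tr} {j D : ℕ} (hP : ∀ i < j, PatW (PT.get i))
    (h : patQ PT j D = true) : PatW (PT.get j) := by
  intro X Y φ r hY hd hφ hG hZ hK hc hS
  simp only [patQ, frc_eq, an_eq, cnd_eq, Nat.ble_eq, Nat.beq_eq, Nat.blt_eq] at h
  obtain ⟨h1, h2, h3, h⟩ := h
  set P := PT.get j
  have rG := Rl_id2 (Q := (· ∈ X)) hG (fun i hi => (tb_lor _ _ _).2 (Or.inl hi)) h2
  have rZ := Rl_id2 (Q := (· ∉ Y)) hZ (fun i hi => (tb_lor _ _ _).2 (Or.inr hi)) h2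
  have rS : ∀ v, (marks idm 8 (qS P)).testBit v = true →
      v < nib P 2 ∧ Pi Y X (φ v) (nib P 0 - 1) := by
    intro v hv
    rw [Nat.shiftLeft_eq', Nat.one_shiftLeft] at h3
    refine ⟨bits_of_lt h3 hv, ?_⟩
    obtain ⟨z, hz, rfl⟩ := (tb_marks _ _ _ _).1 hv
    rw [idm, nib_id (dl_lt hz).1]
    exact hS z hz
  have x16 := nib_lt D 1
  have y16 := nib_lt D 2
  obtain ⟨hc0, hc⟩ := hc
  by_cases k0 : nib D 0 = 0
  · rw [if_pos k0] at h
    simp only [an_eq, Nat.blt_eq, tb_eq, Nat.add_eq, Nat.mul_eq] at h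
    obtain ⟨a2, a3, a4⟩ := h
    obtain ⟨l1, l2, l3⟩ := rZ _ x16 _ y16 a3
    obtain ⟨Q, q1, q2⟩ := book_real hφ (rG.ins l1 l2 x16 y16) a4
    exact Gm.now _ _ _ _ (fun a => absurd (hφ l1 l2 (Sym2.mk_isDiag_iff.1 a)) (by omega)) l3
      (Or.inl ⟨_, _, Q, q1, q2⟩)
  rw [if_neg k0] at h
  simp only [an_eq, Nat.ble_eq] at h
  obtain ⟨t2, K1, h⟩ := h
  obtain ⟨r, rfl⟩ : ∃ s, r = s + 1 := ⟨r - 1, by omega⟩
  split_ifs at h
  · simp only [an_eq, nt_eq] at h
    obtain ⟨a1, a2, a3⟩ := h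
    rw [tb_eq] at a2
    exact fwl (opt_real hφ rG a3) hY ((hc.resolve_right fun k => a1 k.1).1.mono t2 subset_rfl)
      ((rS _ a2).2.mono (by omega) subset_rfl) (nm_of_card hY (by omega))
      (nd_of_card hY (by omega) _) (by omega) r
  · simp only [an_eq] at h
    obtain ⟨a1, a2, a3⟩ := h
    rcases hc with hc | hc
    · exact flexB (opt_real hφ rG a2) (opt_real hφ rG a3) hY hd (hc.1.mono t2 subset_rfl)
        (by have := hc.2 a1; omega) r
    · obtain ⟨r, rfl⟩ : ∃ s, r = s + 1 := ⟨r - 1, by omega⟩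
      exact flexC (opt_real hφ rG a2) (opt_real hφ rG a3) hY hd (by omega) r
  · simp only [an_eq, orr_eq, nt_eq, Nat.ble_eq, Nat.blt_eq, Nat.add_eq, Nat.mul_eq,
      Nat.sub_eq] at h
    obtain ⟨a1, a0, a2, a3, a5, a4⟩ := h
    rw [tb_eq] at a3
    obtain ⟨n, hn⟩ := exists_bound hY
    obtain ⟨k, hk⟩ := ((Set.finite_Iio (nib P 2)).image φ).bddAbove
    set φ' := Function.update φ (nib P 2) (n + k + 1) with hφ'
    have e1 : ∀ a < nib P 2, φ' a = φ a := fun a ha => Function.update_of_ne (by omega) _ _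
    have e2 : φ' (nib P 2) = n + k + 1 := Function.update_self _ _ _
    have inj : Set.InjOn φ' (Set.Iio (nib P 2 + 1)) := by
      intro a ha b hb u
      rcases Nat.lt_succ_iff_lt_or_eq.1 ha with ha | rfl <;>
        rcases Nat.lt_succ_iff_lt_or_eq.1 hb with hb | rfl
      · rw [e1 a ha, e1 b hb] at u; exact hφ ha hb u
      · rw [e1 a ha, e2] at u; have := hk ⟨a, ha, rfl⟩; omega
      · rw [e1 b hb, e2] at u; have := hk ⟨b, hb, rfl⟩; omega
      · rfl
    have up : ∀ {M : ℕ} {Q : E → Prop}, Rl φ (nib P 2) M Q → Rl φ' (nib P 2 + 1) M Q := by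
      intro M Q h a ha b hb hh
      obtain ⟨l1, l2, l3⟩ := h a ha b hb hh
      exact ⟨by omega, by omega, by rwa [e1 a l1, e1 b l2]⟩
    have rZ' : Rl φ' (nib P 2 + 1) (Nat.lor (img idm 8 32 (qZ P)) (star (nib P 2) (nib P 2)))
        (· ∉ Y) := by
      intro a ha b hb hh
      rcases (tb_lor _ _ _).1 hh with hh | hh
      · exact up rZ a ha b hb hh
      · obtain ⟨w, hw, hh | hh⟩ := tb_star hh
        · obtain ⟨rfl, rfl⟩ : a = nib P 2 ∧ b = w := by omega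
          exact ⟨by omega, by omega, fun u => by have := hn _ _ u; omega⟩
        · obtain ⟨rfl, rfl⟩ : a = w ∧ b = nib P 2 := by omega
          exact ⟨by omega, by omega, fun u => by have := hn _ _ (sw u); omega⟩
    obtain ⟨l1, l2, l3⟩ := rZ' _ x16 _ y16 a3
    have rG' := (up rG).ins l1 l2 x16 y16
    set g := s(φ' (nib D 1), φ' (nib D 2))
    have sX := Set.subset_insert g X
    have hd' : ∀ z ∈ Y, z ∉ insert g X := by
      rintro z hz (rfl | k)
      exacts [l3 hz, hd z hz k]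
    have mk : ∀ v, (marks idm 8 (qS P)).testBit v = true →
        Pi Y (insert g X) (φ' v) (nib P 0 - 1) := fun v hv => by
      rw [e1 v (rS v hv).1]
      exact (rS v hv).2.mono le_rfl sX
    refine YN.step (e := g) ⟨⟨?_, nm_of_card hY (by omega)⟩, fun e _ he => ?_, ?_⟩
      (fun a => absurd (inj l1 l2 (Sym2.mk_isDiag_iff.1 a)) (by omega)) l3
    · rcases hc with hc | hc
      · exact hc.1.mono t2 sX
      · exact thr_of_card hY (by have := a1.resolve_left fun a => a hc.1; omega)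
    · have c1 := Set.ncard_insert_le e Y
      refine (casesQ_sound hP inj rG' rZ' he hY ?_ hK (fun t' ht c' a' u1 u2 => ⟨by omega, ?_⟩)
        (fun v hv t' ht => ?_) _ _ _ a4).resolve_right ?_
      · rintro z (rfl | hz)
        exacts [he, hd' z hz]
      · exact hc.imp (fun k => ⟨(k.1.mono le_rfl sX).step ht he, fun u => by
          have := k.2 (u1 u); omega⟩) fun k => ⟨u2 k.1, by omega, k.2.2⟩
      · rcases t' with _ | _ | t'
        · exact fun F hF => by omega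
        · exact fun F hF => by omega
        · exact (mk v hv).step (by omega) he
      · rintro ⟨u1, u2⟩
        obtain ⟨a, ha, b, hb, am, bm, u⟩ := u2 a0
        exact u1 a ha b hb am bm u ((full_bit _).2 (by omega))
    · obtain ⟨u1, u2⟩ := caseChk_sound (Y := Y) (r := r) hP inj rG' a5
      refine u2 hY hd' (by omega) (fun t' ht c' a' u1 _ => ⟨by omega, Or.inl ?_⟩)
        (fun v hv t' ht => (mk v hv).mono (by omega) subset_rfl) (SE_of_Rl rZ' u1)
      rcases hc with k | k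
      · exact ⟨k.1.mono ht.le sX, fun u => by have := k.2 (u1 u); omega⟩
      · exact ⟨thr_of_card hY (by omega), fun _ => by omega⟩

theorem chkQ_sound {PT : Tr} {hi : ℕ} {l : List ℕ} {lo : ℕ} (h : chkQ PT hi l lo = true)
    (h0 : ∀ i < lo, PatW (PT.get i)) : ∀ i < hi, PatW (PT.get i) := by
  induction l generalizing lo with
  | nil =>
    have : Nat.beq lo hi = true := h
    rwa [← Nat.eq_of_beq_eq_true this]
  | cons z l ih =>
    have : an (patQ PT lo z) (frc (Nat.succ lo) (chkQ PT hi l)) = true := h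
    rw [an_eq, frc_eq] at this
    refine ih this.2 fun i hi => ?_
    rcases Nat.lt_succ_iff_lt_or_eq.1 hi with hi | rfl
    exacts [h0 i hi, patQ_sound h0 this.1]

end Pool.Agent.Lib.MP_715591_co.Fam
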