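import Pool.Agent.Lib.MP_715591_co.Fam.Pat

/-!
Soundness of the check of positions.
-/

namespace Pool.Agent.Lib.MP_715591_co.Fam

open Classical

/-- meaning of a record of the table -/
def NodeW (N : ℕ) : Prop := YN (nib N 0) (SE id (dl 8 32 (nX N))) (SE id (dl 8 32 (nY N)))

theorem SE_finite (φ : ℕ → ℕ) (l : List (ℕ × ℕ)) : (SE φ l).Finite :=
  (l.finite_toSet.image fun z => s(φ z.1, φ z.2)).subset fun _ ⟨z, hz, h⟩ => ⟨z, hz, h.symm⟩

theorem SE_card (φ : ℕ → ℕ) (f code : ℕ) : (SE φ (dl 8 f code)).ncard ≤ cntE f code := by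
  induction f generalizing code with
  | zero => simp [SE, dl]
  | succ f ih =>
    have e : cntE (f + 1) code = cnd (Nat.beq code 0) 0
      (Nat.succ (frc (Nat.shiftRight code 8) (cntE f))) := rfl
    rw [e, dl, cnd_eq, frc_eq]
    simp only [Nat.beq_eq]
    split_ifs
    · simp [SE]
    · refine le_trans (Set.ncard_le_ncard (t := insert _ (SE φ (dl 8 f (Nat.shiftRight code 8)))) ?_
        ((SE_finite _ _).insert s(φ (Nat.land code 15), φ (Nat.land (Nat.shiftRight code 4) 15))))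
        ((Set.ncard_insert_le _ _).trans (Nat.succ_le_succ (ih _)))
      rintro _ ⟨z, hz, rfl⟩
      rcases List.mem_cons.1 hz with rfl | hz
      exacts [Or.inl rfl, Or.inr ⟨z, hz, rfl⟩]

theorem NodeW.img {N ψ : ℕ} (h : NodeW N) (hψ : pc (vals ψ 16) = 16) :
    YN (nib N 0) (ES (img ψ 8 32 (nX N))) (ES (img ψ 8 32 (nY N))) := by
  have inj := inj_of_pc hψ
  obtain ⟨π, hπ⟩ := Cardinal.extend_function_of_lt (s := Set.Iio 16)
    ⟨fun i => nib ψ i.1, fun a b h => Subtype.ext (inj a.2 b.2 h)⟩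
    (by rw [Cardinal.mk_nat]; exact (Set.finite_Iio 16).lt_aleph0) ⟨Equiv.refl ℕ⟩
  have e : ∀ i < 16, nib ψ i = π i := fun i hi => (hπ ⟨i, hi⟩).symm
  rw [ES_img, ES_img, SE_congr e, SE_congr e, ← pb_SE, ← pb_SE]
  exact YN.to_pb _ h

/-- what is known about the set `Y'` of the opponent after the move with bit `b` -/
structure Ctx (X Y m c crit mm b : ℕ) (Y' : Set E) : Prop where
  fin : Y'.Finite
  card : Y'.ncard ≤ mm
  dj : ∀ e ∈ Y', e ∉ ES X
  thr : ∀ t, t ≤ c → (t = c → ¬ crit.testBit b = true) → Thr Y' (ES X) t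
  pi : ∀ v < 16, ∀ c' z K, Sub (critR c' 3 (rw0 Y X v) (RL Y X m) z) K →
    ¬ K.testBit 320 = true → ¬ K.testBit b = true → Pi Y' (ES X) v c'
  out : ∀ Z, Sy Z → Nat.land Z Y = 0 → ¬ Z.testBit b = true → ∀ e ∈ ES Z, e ∉ Y'
  sub : ∀ A, sub Y A = true → ¬ (Nat.xor full A).testBit b = true → Y' ⊆ ES A

theorem Rl_ES (X : ℕ) : Rl id 16 X (· ∈ ES X) := fun a ha b hb h => ⟨ha, hb, a, ha, b, hb, h, rfl⟩

theorem ruleP_sound {PT : Tr} {np X Y m c crit lv mm code b : ℕ} {k : ℕ → Bool} {Y' : Set E}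
    (hP : ∀ i < np, PatW (PT.get i)) (C : Ctx X Y m c crit mm b Y')
    (h : ruleP PT np X Y (RL Y X m) c crit lv mm code k = true) :
    Gm lv (ES X) Y' ∨ ∃ bad : ℕ, bad.testBit b = true ∧ k bad = true := by
  simp only [ruleP, frc_eq, an_eq, cnd_eq, Nat.beq_eq, Nat.ble_eq, Nat.sub_eq, Nat.add_eq] at h
  obtain ⟨h1, h2, h3, h4, h5, h6, h⟩ := h
  rw [Nat.blt_eq] at h1
  have hP' := hP _ h1
  generalize PT.get (eId code) = P at *
  generalize eMap code = ψ at *
  have c1 := C.card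
  have main : ∀ W : ℕ, Sub (img ψ 8 32 (qZ P)) W →
      Nat.blt (critS Y X (RL Y X m) (nib P 0 - 1) ψ 8 (qS P) W) flag = true →
      k (critS Y X (RL Y X m) (nib P 0 - 1) ψ 8 (qS P) W) = true →
      (¬ W.testBit b = true → Cnd (nib P 0) (tb P 12) (tb P 13) lv (ES X) Y') →
      Gm lv (ES X) Y' ∨ ∃ bad : ℕ, bad.testBit b = true ∧ k bad = true := by
    intro W w1 w2 w3 w4
    obtain ⟨s1, s2⟩ := critS_spec Y X (RL Y X m) (nib P 0 - 1) ψ 8 (qS P) W
    generalize critS Y X (RL Y X m) (nib P 0 - 1) ψ 8 (qS P) W = bad at *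
    by_cases hb : bad.testBit b = true
    · exact Or.inr ⟨bad, hb, w3⟩
    refine Or.inl (hP' _ _ (nib ψ) lv C.fin C.dj (inj_of_pc h2) (ES_img _ _ _ _ ▸ ES_sub h5) ?_ h3
      (w4 fun a => hb (s1 _ a)) fun z hz => ?_)
    · rw [← ES_img]
      exact C.out _ (Sy_img _ _ _ _) h6 fun a => hb (s1 _ (w1 _ a))
    · obtain ⟨u, hu⟩ := s2 z hz
      exact C.pi _ (nib_lt _ _) _ _ _ hu (no_flag w2) hb
  by_cases c0 : tb P 13 = true ∧ mm + nib P 0 ≤ 10 ∧ 2 ≤ lv
  · rw [if_pos c0, an_eq] at h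
    exact main _ Sub.rfl h.1 h.2 fun _ => ⟨by omega, Or.inr ⟨c0.1, by omega, c0.2.2⟩⟩
  · rw [if_neg c0] at h
    simp only [an_eq, orr_eq, nt_eq, Nat.ble_eq] at h
    obtain ⟨u1, u2, u3, u4⟩ := h
    refine main _ (fun i hi => ?_) u3 u4 fun w => ⟨by omega, Or.inl ⟨C.thr _ u1 fun e a => w ?_,
      fun a => by have := u2.resolve_left fun j => j a; omega⟩⟩
    · split_ifs
      exacts [(tb_lor _ _ _).2 (Or.inr hi), hi]
    · rw [if_pos e]
      exact (tb_lor _ _ _).2 (Or.inl a)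

theorem ruleK_sound {T : Tr} {j X Y m c crit lv mm code b : ℕ} {k : ℕ → Bool} {Y' : Set E}
    (hT : ∀ i < j, NodeW (T.get i)) (C : Ctx X Y m c crit mm b Y')
    (h : ruleK T j X Y lv code k = true) :
    Gm lv (ES X) Y' ∨ ∃ bad : ℕ, bad.testBit b = true ∧ k bad = true := by
  simp only [ruleK, frc_eq, an_eq, orr_eq, nt_eq, Nat.beq_eq, Nat.ble_eq, Nat.blt_eq, tb_eq,
    Nat.add_eq, Nat.mul_eq] at h
  obtain ⟨h1, h2, h3, h4, h5, h6, h7, h8⟩ := h
  have hN := (hT _ h1).img h2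
  have l3 := nib_lt code 20
  have l4 := nib_lt code 21
  by_cases hb : (Nat.xor full (img (eMap code) 8 32 (nY (T.get (eId code))))).testBit b = true
  · exact Or.inr ⟨_, hb, h8⟩
  have hs := C.sub _ h6 hb
  have h9 := hN.mono (ES_sub h5) hs
  rw [ES_ins X l3 l4] at h9
  have nd : ¬ (s(nib code 20, nib code 21) : E).IsDiag := by simp; omega
  have nY : s(nib code 20, nib code 21) ∉ Y' := fun a => h4 ((Sy_img _ _ _ _).mem.1 (hs a)).2.2
  left
  rcases h7 with h7 | ⟨h7, h10⟩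
  · exact h7 ▸ h9.step nd nY
  · obtain ⟨s, rfl⟩ : ∃ s, lv = s + 1 := ⟨lv - 1, by omega⟩
    exact (h9.up h7 ((ES_finite X).insert _) (by omega)).step nd nY

theorem star_mem {y : ℕ} (hy : y < 16) {a b : ℕ} (_ : a < 16) (hb : b < 16)
    (h : (star y 16).testBit (16 * a + b) = true) : y ∈ (s(a, b) : E) := by
  obtain ⟨w, hw, h⟩ := tb_star h
  exact Sym2.mem_iff.2 (by omega)

theorem ruleT_sound {X Y m c crit lv mm code b : ℕ} {k : ℕ → Bool} {Y' : Set E} (hc : 2 ≤ c)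
    (C : Ctx X Y m c crit mm b Y') (h : ruleT X Y (RL Y X m) c crit lv code k = true) :
    Gm lv (ES X) Y' ∨ ∃ bad : ℕ, bad.testBit b = true ∧ k bad = true := by
  simp only [ruleT, frc_eq, an_eq, mkRow_eq, cnd_eq, Nat.beq_eq] at h
  obtain ⟨rfl, h2, h3, h4, h5⟩ := h
  have s1 := critR_acc 1 3 (rw0 Y X (nib code 2)) (RL Y X m) (Nat.lor (Nat.xor full (Nat.lor
    (Nat.lor (star (nib code 2) 16) (star (nib code 3) 16)) (bit2 (nib code 4) (nib code 5))))
    (if c = 2 then crit else 0))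
  by_cases hb : (critR 1 3 (rw0 Y X (nib code 2)) (RL Y X m) (Nat.lor (Nat.xor full (Nat.lor
    (Nat.lor (star (nib code 2) 16) (star (nib code 3) 16)) (bit2 (nib code 4) (nib code 5))))
    (if c = 2 then crit else 0))).testBit b = true
  · exact Or.inr ⟨_, hb, h5⟩
  refine Or.inl (Gm.pump _ _ ⟨C.fin, nib code 1, nib code 2, nib code 3, s(nib code 4, nib code 5),
    book_real (φ := id) (fun _ _ _ _ h => h) (Rl_ES X) h3,
    C.thr 2 hc fun e a => hb (s1 _ ((tb_lor _ _ _).2 (Or.inr (by rwa [if_pos e.symm])))),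
    C.pi _ (nib_lt _ _) _ _ _ Sub.rfl (no_flag h4) hb, fun f hf => ?_⟩)
  obtain ⟨u, hu, v, hv, a, rfl⟩ := C.sub _ h2 (fun a => hb (s1 _ ((tb_lor _ _ _).2 (Or.inl a)))) hf
  rw [tb_lor, tb_lor, tb_bit2] at a
  have := nib_lt code 4
  have := nib_lt code 5
  rcases a with (a | a) | a
  exacts [Or.inl (star_mem (nib_lt _ _) hu hv a), Or.inr (Or.inl (star_mem (nib_lt _ _) hu hv a)),
    Or.inr (Or.inr (Sym2.eq_iff.2 (by omega)))]

theorem cover_sound {PT T : Tr} {np j X Y m c crit lv mm b : ℕ} {Y' : Set E}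
    (hP : ∀ i < np, PatW (PT.get i)) (hT : ∀ i < j, NodeW (T.get i)) (hc : 2 ≤ c)
    (C : Ctx X Y m c crit mm b Y') (f code U : ℕ)
    (h : cover PT T np j X Y (RL Y X m) c crit lv mm f code U = true)
    (hU : U.testBit b = true) : Gm lv (ES X) Y' := by
  induction f generalizing code U with
  | zero => exact absurd h Bool.false_ne_true
  | succ f ih =>
    have e0 : cover PT T np j X Y (RL Y X m) c crit lv mm (f + 1) code U =
      cnd (Nat.beq code 0) (Nat.beq U 0) (frc (Nat.shiftRight code 88) fun z =>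
      cnd (Nat.beq (Nat.land code 3) 1)
        (ruleP PT np X Y (RL Y X m) c crit lv mm code fun bad => frc (Nat.land U bad)
          (cover PT T np j X Y (RL Y X m) c crit lv mm f z))
        (cnd (Nat.beq (Nat.land code 3) 2)
          (ruleK T j X Y lv code fun bad => frc (Nat.land U bad)
            (cover PT T np j X Y (RL Y X m) c crit lv mm f z))
          (ruleT X Y (RL Y X m) c crit lv code fun bad => frc (Nat.land U bad)
            (cover PT T np j X Y (RL Y X m) c crit lv mm f z)))) := rfl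
    rw [e0] at h
    simp only [cnd_eq, frc_eq] at h
    have fin : ∀ bad : ℕ, bad.testBit b = true → cover PT T np j X Y (RL Y X m) c crit lv mm f
        (Nat.shiftRight code 88) (Nat.land U bad) = true → Gm lv (ES X) Y' :=
      fun bad b1 b2 => ih _ _ b2 ((tb_land _ _ _).2 ⟨hU, b1⟩)
    split_ifs at h
    · rw [Nat.beq_eq] at h
      rw [h] at hU
      simp at hU
    · exact (ruleP_sound hP C h).elim id fun ⟨bad, b1, b2⟩ => fin bad b1 b2
    · exact (ruleK_sound hT C h).elim id fun ⟨bad, b1, b2⟩ => fin bad b1 b2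
    · exact (ruleT_sound hc C h).elim id fun ⟨bad, b1, b2⟩ => fin bad b1 b2

theorem pi_sound0 {X Y m c K v z : ℕ} (hm : m ≤ 16) (hv : v < 16) (sX : Sy X)
    (hX : ∀ a b, s(a, b) ∈ ES X → a < m) (hd : ∀ e ∈ ES X, e ∉ ES Y)
    (hK : Sub (critR c 3 (rw0 X Y v) (RL X Y m) z) K) (hf : ¬ K.testBit 320 = true) :
    Pi (ES X) (ES Y) v c := by
  rintro F h1 h2 q ⟨P, hc, hb⟩
  obtain ⟨s, hs, ok⟩ : ∃ s ∈ RL X Y m, RowOK (ES X) (ES Y) m q s := by
    by_cases hq : q < m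
    · exact ⟨rw0 X Y q, List.mem_append_left _ (List.mem_map.2 ⟨q, List.mem_range.2 hq, rfl⟩),
        rw0_ok sX m (by omega)⟩
    · exact ⟨⟨16, 0, 0, 0⟩, by simp [RL], dummy_ok hX (by omega) le_rfl⟩
  obtain ⟨u, hu⟩ := critR_mem c 3 (rw0 X Y v) z hs
  have := pairT_sound hm (rw0_ok sX m hv) ok hb hc h2 hd fun a => hf (hK _ (hu _ a))
  omega

theorem land_out {Z Y : ℕ} (sY : Sy Y) (h : Nat.land Z Y = 0) : ∀ e ∈ ES Z, e ∉ ES Y := by
  rintro _ ⟨x, hx, y, hy, h1, rfl⟩ h2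
  have := (tb_land Z Y _).2 ⟨h1, (sY.mem.1 h2).2.2⟩
  rw [h] at this
  simp at this

theorem leaf4_sound {X Y h : ℕ} (sX : Sy X) (sY : Sy Y) (dj : ∀ e ∈ ES Y, e ∉ ES X)
    (ht : Thr (ES Y) (ES X) 2) (hc : leaf4 X Y h = true) (r : ℕ) : YN (r + 1) (ES X) (ES Y) := by
  simp only [leaf4, frc_eq, an_eq, nt_eq, cnd_eq, orr_eq, Nat.beq_eq, Nat.ble_eq] at hc
  obtain ⟨h1, h2, h3, h4, h5, h6⟩ := hc
  have x16 := nib_lt h 3
  have y16 := nib_lt h 4
  have b16 := nib_lt h 6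
  have o : ∀ {a b p : ℕ}, optChk X a b p = true → Opt (ES X) a b := fun k =>
    opt_real (φ := id) (fun _ _ _ _ h => h) (Rl_ES X) k
  generalize nib h 3 = x at *
  generalize nib h 4 = y at *
  refine tl4' h3 h4 (ES_finite Y) dj ⟨fun e he => ?_, ?_⟩ ht (o h5) ?_ r
  · obtain ⟨u, hu, v, hv, a, rfl⟩ := ES_sub h1 he
    exact ((tb_lor _ _ _).1 a).imp (star_mem x16 hu hv) (star_mem y16 hu hv)
  · rw [pc_eq (lt_of_bits (k := 16) fun i hi => by
      rcases (tb_lor _ _ _).1 ((tb_land _ _ _).1 hi).1 with a | a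
      exacts [((tb_row _ _ _).1 a).1, ((tb_row _ _ _).1 a).1])] at h2
    refine ⟨_, h2, fun w w1 w2 w3 w4 w5 => ?_⟩
    rw [sY.mem, sY.mem] at w3
    rw [sX.mem] at w4 w5
    have w16 : w < 16 := w3.elim (fun a => a.2.1) fun a => a.2.1
    rw [Finset.mem_filter, Finset.mem_range, tb_land, tb_lor, tb_row, tb_row, tb_xor, tb_full, tb_lor,
      tb_lor, tb_lor, tb_row, tb_row, tb_one, tb_one]
    tauto
  · split_ifs at h6 with k
    · refine Or.inl ⟨k, fun w a => ?_⟩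
      have := (tb_row Y (nib h 6) w).2 ⟨(sY.mem.1 a).2.1, (sY.mem.1 a).2.2⟩
      rw [Nat.beq_eq] at h6
      rw [h6] at this
      simp at this
    · exact Or.inr ⟨fun a => k (Or.inl a), fun a => k (Or.inr a), o h6⟩

theorem nodeQ_sound {PT T : Tr} {np j h ch : ℕ} (hP : ∀ i < np, PatW (PT.get i))
    (hT : ∀ i < j, NodeW (T.get i)) (hc : nodeQ PT T np j h ch = true) : NodeW (T.get j) := by
  simp only [nodeQ, an_eq, frc_eq, cnd_eq, rowsK_eq, Nat.ble_eq, Nat.beq_eq, Nat.add_eq] at hc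
  have e : ∀ i < 16, nib idm i = id i := fun i hi => nib_id hi
  have cd := SE_card (nib idm) 32 (nY (T.get j))
  have c32 : ∀ f code, cntE f code ≤ f := by
    intro f
    induction f with
    | zero => exact fun _ => le_rfl
    | succ f ih =>
      intro code
      have e : cntE (f + 1) code = cnd (Nat.beq code 0) 0
        (Nat.succ (frc (Nat.shiftRight code 8) (cntE f))) := rfl
      rw [e, cnd_eq, frc_eq]
      split_ifs
      exacts [Nat.zero_le _, Nat.succ_le_succ (ih _)]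
  have c33 := c32 32 (nY (T.get j))
  rw [← ES_img] at cd
  rw [NodeW, ← SE_congr e, ← SE_congr e, ← ES_img, ← ES_img]
  have sX := Sy_img idm 8 32 (nX (T.get j))
  have sY := Sy_img idm 8 32 (nY (T.get j))
  generalize img idm 8 32 (nX (T.get j)) = X at *
  generalize img idm 8 32 (nY (T.get j)) = Y at *
  generalize cntE 32 (nY (T.get j)) = mm at *
  generalize nib (T.get j) 0 = r at *
  generalize nib h 0 = n at *
  generalize nib h 1 = c at *
  obtain ⟨h1, h2, h3, h4, h5, h6⟩ := hc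
  have sup : ∀ a b, b < 16 → (Nat.lor X Y).testBit (16 * a + b) = true → a < n := by
    intro a b hb h
    by_contra hh
    rw [show 16 * a + b = 16 * n + (16 * a + b - 16 * n) by omega, ← Nat.testBit_shiftRight,
      show Nat.lor X Y >>> (16 * n) = 0 from h4] at h
    simp at h
  have hX : ∀ a b, s(a, b) ∈ ES X → a < n := fun a b h =>
    sup a b (sX.mem.1 h).2.1 ((tb_lor _ _ _).2 (Or.inl (sX.mem.1 h).2.2))
  have hY : ∀ a b, s(a, b) ∈ ES Y → a < n := fun a b h =>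
    sup a b (sY.mem.1 h).2.1 ((tb_lor _ _ _).2 (Or.inr (sY.mem.1 h).2.2))
  have hY' : ∀ a b, s(a, b) ∈ ES Y → a < n + 2 := fun a b h => by have := hY a b h; omega
  have dj : ∀ e ∈ ES Y, e ∉ ES X := fun e a b => land_out sY h3 e b a
  obtain ⟨t1, t2⟩ := thr_sound (m := n + 2) (by omega) sY hY' dj Sub.rfl (no_flag h5)
  split_ifs at h6
  · simp only [an_eq, Nat.ble_eq] at h6
    obtain ⟨r, rfl⟩ : ∃ s, r = s + 1 := ⟨r - 1, by omega⟩
    exact leaf4_sound sX sY dj (t1.mono h2 subset_rfl) h6.2 r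
  rw [an_eq] at h6
  refine ⟨⟨t1.mono h2 subset_rfl, nm_of_card (ES_finite Y) (by omega)⟩,
    Gm.can n hX hY fun x y hxy hc e1 e2 => ?_,
    cover_sound (b := 300) (m := n + 2) hP hT h2 ⟨ES_finite Y, cd, dj,
      fun t a _ => t1.mono a subset_rfl,
      fun v hv c' z K k1 k2 _ => pi_sound0 (by omega) hv sY hY' dj k1 k2,
      fun Z _ k _ => land_out sY k, fun A k _ => ES_sub k⟩ _ _ _ h6.1 ((tb_one _ _).2 rfl)⟩
  have hy : y < n + 2 := by omega
  refine cover_sound (b := 16 * x + y) (m := n + 2) hP hT h2 ⟨(ES_finite Y).insert _,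
    (Set.ncard_insert_le _ _).trans (Nat.succ_le_succ cd), ?_, fun t a b => ?_,
    fun v hv c' z K k1 k2 k3 => pi_sound (by omega) hv sY hY' dj k1 k2 hxy hy e1 k3,
    fun Z sZ k1 k2 => ?_, fun A k1 k2 => Set.insert_subset ?_ (ES_sub k1)⟩ _ _ _ h6.2 ?_
  · rintro e (rfl | a)
    exacts [e1, dj e a]
  · by_cases k : t = c
    · exact k ▸ t2 x y hxy hy e1 (b k)
    · exact t1.step (by omega) e1
  · rintro g hg (rfl | a)
    exacts [k2 (sZ.mem.1 hg).2.2, land_out sY k1 g hg a]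
  · rw [tb_xor, full_bit, not_not] at k2
    exact ⟨x, by omega, y, by omega, k2.1 (by omega), rfl⟩
  · rw [tb_xor, tb_land, tb_lor]
    intro k
    rcases (k.1 (canon_bit h1 hxy hc)).2 with a | a
    exacts [e1 ⟨x, by omega, y, by omega, a, rfl⟩, e2 ⟨x, by omega, y, by omega, a, rfl⟩]

theorem chkN_sound {PT T : Tr} {np hi : ℕ} {l : List (ℕ × ℕ)} {lo : ℕ}
    (hP : ∀ i < np, PatW (PT.get i)) (h : chkN PT T np hi l lo = true)
    (h0 : ∀ i < lo, NodeW (T.get i)) : ∀ i < hi, NodeW (T.get i) := by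
  induction l generalizing lo with
  | nil =>
    have : Nat.beq lo hi = true := h
    rwa [← Nat.eq_of_beq_eq_true this]
  | cons z l ih =>
    have : an (nodeQ PT T np lo z.1 z.2) (frc (Nat.succ lo) (chkN PT T np hi l)) = true := h
    rw [an_eq, frc_eq] at this
    refine ih this.2 fun i hi => ?_
    rcases Nat.lt_succ_iff_lt_or_eq.1 hi with hi | rfl
    exacts [h0 i hi, nodeQ_sound hP h0 this.1]

theorem root_gm (h : NodeW 263) : Gm 8 ∅ ∅ := by
  have e1 : nib 263 0 = 7 := by decide +kernel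
  have e2 : dl 8 32 (nX 263) = [(0, 1)] := by decide +kernel
  have e3 : dl 8 32 (nY 263) = [] := by decide +kernel
  rw [NodeW, e1, e2, e3] at h
  refine YN.step (e := s(0, 1)) (h.mono ?_ (Set.empty_subset _)) (by simp) (by simp)
  rintro _ ⟨z, hz, rfl⟩
  rw [List.mem_singleton.1 hz]
  exact Or.inl rfl

end Pool.Agent.Lib.MP_715591_co.Fam
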